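import Pool.Agent.LibBS39.Steiner

/-! Blaschke-Santaló for symmetric measurable sets, part 2: unconditional sets (Prékopa-Leindler in
exponential coordinates), and the theorem. -/

set_option autoImplicit false

open MeasureTheory Set
open scoped ENNReal

namespace Pool.Agent.LibBS39

open Pool.Agent.LibSP74

/-- Even functions on the line in the exponential coordinate. -/
theorem lint_even {G : ℝ → ℝ≥0∞} (hG : Measurable G) (he : ∀ x, G (-x) = G x) :
    ∫⁻ x, G x = 2 * ∫⁻ s : ℝ, G (Real.exp s) * ENNReal.ofReal (Real.exp s) := by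
  have h1 : ∫⁻ x in Ioi (0 : ℝ), G x = ∫⁻ s : ℝ, G (Real.exp s) * ENNReal.ofReal (Real.exp s) := by
    have h := lintegral_image_eq_lintegral_abs_deriv_mul (s := univ) (f := Real.exp)
      (f' := Real.exp) MeasurableSet.univ (fun x _ => (Real.hasDerivAt_exp x).hasDerivWithinAt)
      (Real.exp_injective.injOn) G
    rw [image_univ, Real.range_exp, setLIntegral_univ] at h
    rw [h]
    refine lintegral_congr fun s => ?_
    rw [abs_of_pos (Real.exp_pos s), mul_comm]
  have h2 : ∫⁻ x in Iio (0 : ℝ), G x = ∫⁻ x in Ioi (0 : ℝ), G x := by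
    have hmp : MeasurePreserving (fun x : ℝ => -x) volume volume := Measure.measurePreserving_neg volume
    have h := hmp.setLIntegral_comp_preimage (s := Ioi (0 : ℝ)) measurableSet_Ioi hG
    rw [← h]
    have e : (fun x : ℝ => -x) ⁻¹' Ioi (0 : ℝ) = Iio 0 := by
      ext x
      simp
    rw [e]
    exact lintegral_congr fun x => (he x).symm
  have h3 : ∫⁻ x in (Iio (0 : ℝ))ᶜ, G x = ∫⁻ x in Ioi (0 : ℝ), G x := by
    rw [compl_Iio]
    exact setLIntegral_congr Ioi_ae_eq_Ici.symm
  rw [← lintegral_add_compl G (measurableSet_Iio (a := (0 : ℝ))), h2, h3, h1, two_mul]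

theorem slice {d : ℕ} {f : (Fin (d + 1) → ℝ) → ℝ≥0∞} (hf : Measurable f) :
    ∫⁻ x, f x = ∫⁻ x : ℝ, ∫⁻ z : Fin d → ℝ, f (Fin.cons x z) := by
  have hm := (volume_preserving_piFinSuccAbove (fun _ : Fin (d + 1) => ℝ) 0).symm
  have hc : Measurable fun a : ℝ × (Fin d → ℝ) =>
      f ((MeasurableEquiv.piFinSuccAbove (fun _ : Fin (d + 1) => ℝ) 0).symm a) :=
    hf.comp (MeasurableEquiv.measurable _)
  rw [← hm.lintegral_comp_emb (MeasurableEquiv.measurableEmbedding _) f,
    Measure.volume_eq_prod, lintegral_prod _ hc.aemeasurable]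
  refine lintegral_congr fun x => lintegral_congr fun z => ?_
  rw [MeasurableEquiv.piFinSuccAbove_symm_apply, Fin.insertNthEquiv_zero]
  rfl

theorem meas_cons {d : ℕ} {f : (Fin (d + 1) → ℝ) → ℝ≥0∞} (hf : Measurable f) :
    Measurable fun p : ℝ × (Fin d → ℝ) => f (Fin.cons p.1 p.2) := by
  refine hf.comp ?_
  refine measurable_pi_lambda _ fun i => ?_
  refine Fin.cases ?_ (fun j => ?_) i
  · simpa using measurable_fst
  · have h1 : Measurable fun c : ℝ × (Fin d → ℝ) => c.2 j :=
      (measurable_pi_apply j).comp measurable_snd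
    simpa using h1

/-- The integrand in exponential coordinates. -/
noncomputable def Phi {d : ℕ} (F : (Fin d → ℝ) → ℝ≥0∞) (s : Fin d → ℝ) : ℝ≥0∞ :=
  F (fun i => Real.exp (s i)) * ENNReal.ofReal (Real.exp (∑ i, s i))

theorem measurable_Phi {d : ℕ} {F : (Fin d → ℝ) → ℝ≥0∞} (hF : Measurable F) :
    Measurable (Phi F) := by
  unfold Phi
  refine (hF.comp (by fun_prop)).mul (ENNReal.measurable_ofReal.comp (by fun_prop))

theorem lint_flip (d : ℕ) {F : (Fin d → ℝ) → ℝ≥0∞} (hF : Measurable F)
    (hf : ∀ j x, F (flip j x) = F x) : ∫⁻ x, F x = 2 ^ d * ∫⁻ s, Phi F s := by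
  induction d with
  | zero =>
    rw [Measure.volume_pi_eq_dirac 0, lintegral_dirac, lintegral_dirac, pow_zero, one_mul]
    unfold Phi
    rw [Finset.univ_eq_empty, Finset.sum_empty, Real.exp_zero, ENNReal.ofReal_one, mul_one]
    exact congrArg F (Subsingleton.elim _ _)
  | succ d ih =>
    rw [slice hF, slice (measurable_Phi hF)]
    have hG : Measurable fun x : ℝ => ∫⁻ z : Fin d → ℝ, F (Fin.cons x z) :=
      (meas_cons hF).lintegral_prod_right'
    have he : ∀ x : ℝ, ∫⁻ z : Fin d → ℝ, F (Fin.cons (-x) z) =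
        ∫⁻ z : Fin d → ℝ, F (Fin.cons x z) := by
      intro x
      refine lintegral_congr fun z => ?_
      rw [← hf 0 (Fin.cons x z)]
      refine congrArg F ?_
      funext i
      refine Fin.cases ?_ (fun j => ?_) i
      · unfold flip
        rw [if_pos rfl, Fin.cons_zero, Fin.cons_zero]
      · unfold flip
        rw [if_neg (Fin.succ_ne_zero j), Fin.cons_succ, Fin.cons_succ]
    rw [lint_even hG he, pow_succ', mul_assoc]
    refine congrArg (fun t => 2 * t) ?_
    rw [← lintegral_const_mul' (2 ^ d) _ (by finiteness)]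
    refine lintegral_congr fun s => ?_
    have hm : Measurable fun z : Fin d → ℝ => F (Fin.cons (Real.exp s) z) :=
      (meas_cons hF).comp measurable_prodMk_left
    have hfl : ∀ (j : Fin d) (z : Fin d → ℝ), F (Fin.cons (Real.exp s) (flip j z)) =
        F (Fin.cons (Real.exp s) z) := by
      intro j z
      rw [← hf j.succ (Fin.cons (Real.exp s) z)]
      refine congrArg F ?_
      funext i
      refine Fin.cases ?_ (fun l => ?_) i
      · unfold flip
        rw [if_neg (Ne.symm (Fin.succ_ne_zero j)), Fin.cons_zero, Fin.cons_zero]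
      · unfold flip
        rw [Fin.cons_succ, Fin.cons_succ]
        by_cases hlj : l = j
        · rw [if_pos hlj, if_pos (by rw [hlj])]
        · rw [if_neg hlj, if_neg (fun h => hlj (Fin.succ_injective _ h))]
    rw [ih hm hfl, mul_assoc]
    refine congrArg (fun t => 2 ^ d * t) ?_
    rw [← lintegral_mul_const' _ _ (by finiteness)]
    refine lintegral_congr fun z => ?_
    unfold Phi
    rw [Fin.sum_univ_succ, Fin.cons_zero, Real.exp_add, ENNReal.ofReal_mul (Real.exp_nonneg _)]
    have e1 : (fun i => Real.exp ((Fin.cons s z : Fin (d + 1) → ℝ) i)) =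
        Fin.cons (Real.exp s) (fun i => Real.exp (z i)) := by
      funext i
      refine Fin.cases ?_ (fun l => ?_) i
      · rw [Fin.cons_zero, Fin.cons_zero]
      · rw [Fin.cons_succ, Fin.cons_succ]
    rw [e1]
    have e2 : ∑ i : Fin d, (Fin.cons s z : Fin (d + 1) → ℝ) i.succ = ∑ i, z i :=
      Finset.sum_congr rfl fun i _ => Fin.cons_succ _ _ _
    rw [e2]
    ring

/-- The unit ball. -/
def Bl (d : ℕ) : Set (Fin d → ℝ) := {x | ∑ i, x i ^ 2 ≤ 1}

theorem measurableSet_Bl (d : ℕ) : MeasurableSet (Bl d) :=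
  measurableSet_le (by fun_prop) measurable_const

theorem uncond {d : ℕ} {A C : Set (Fin d → ℝ)} (hA : MeasurableSet A) (hC : MeasurableSet C)
    (fA : ∀ j, ∀ x ∈ A, flip j x ∈ A) (fC : ∀ j, ∀ x ∈ C, flip j x ∈ C)
    (h : ∀ x ∈ A, ∀ y ∈ C, ∑ i, x i * y i ≤ 1) :
    volume A * volume C ≤ volume (Bl d) ^ 2 := by
  have hff : ∀ (j : Fin d) (w : Fin d → ℝ), flip j (flip j w) = w := by
    intro j w
    funext i
    unfold flip
    split_ifs
    · rw [neg_neg]
    · rfl
  have hind : ∀ {D : Set (Fin d → ℝ)}, (∀ j, ∀ x ∈ D, flip j x ∈ D) → ∀ j x,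
      D.indicator (1 : (Fin d → ℝ) → ℝ≥0∞) (flip j x) = D.indicator 1 x := by
    intro D hD j x
    by_cases hx : x ∈ D
    · rw [indicator_of_mem hx, indicator_of_mem (hD j x hx), Pi.one_apply, Pi.one_apply]
    · have hx' : flip j x ∉ D := fun h' => hx (by
        have h2 := hD j _ h'
        rwa [hff] at h2)
      rw [indicator_of_notMem hx, indicator_of_notMem hx']
  have fB : ∀ j, ∀ x ∈ Bl d, flip j x ∈ Bl d := by
    intro j x hx
    unfold Bl at hx ⊢
    rw [mem_ofPred_eq] at hx ⊢
    have e : ∑ i, flip j x i ^ 2 = ∑ i, x i ^ 2 := by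
      refine Finset.sum_congr rfl fun i _ => ?_
      unfold flip
      split_ifs <;> ring
    rw [e]
    exact hx
  have mA : Measurable (A.indicator (1 : (Fin d → ℝ) → ℝ≥0∞)) := measurable_one.indicator hA
  have mC : Measurable (C.indicator (1 : (Fin d → ℝ) → ℝ≥0∞)) := measurable_one.indicator hC
  have mB : Measurable ((Bl d).indicator (1 : (Fin d → ℝ) → ℝ≥0∞)) :=
    measurable_one.indicator (measurableSet_Bl d)
  have key := pl d (measurable_Phi mA) (measurable_Phi mC) (measurable_Phi mB) (fun s t => by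
    unfold Phi
    by_cases hs : (fun i => Real.exp (s i)) ∈ A
    · by_cases ht : (fun i => Real.exp (t i)) ∈ C
      · have hB : (fun i => Real.exp (((1 / 2 : ℝ) • (s + t)) i)) ∈ Bl d := by
          unfold Bl
          rw [mem_ofPred_eq]
          refine le_trans (le_of_eq ?_) (h _ hs _ ht)
          refine Finset.sum_congr rfl fun i _ => ?_
          rw [← Real.exp_add, ← Real.exp_nat_mul, Pi.smul_apply, Pi.add_apply, smul_eq_mul]
          refine congrArg _ ?_
          push_cast
          ring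
        rw [indicator_of_mem hs, indicator_of_mem ht, indicator_of_mem hB, Pi.one_apply,
          Pi.one_apply, Pi.one_apply, one_mul, one_mul, one_mul,
          ← ENNReal.ofReal_mul (Real.exp_nonneg _), ← ENNReal.ofReal_pow (Real.exp_nonneg _),
          ← Real.exp_add, ← Real.exp_nat_mul]
        refine ENNReal.ofReal_le_ofReal (le_of_eq (congrArg _ ?_))
        simp only [Pi.smul_apply, Pi.add_apply, smul_eq_mul]
        rw [← Finset.mul_sum, Finset.sum_add_distrib]
        push_cast
        ring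
      · rw [indicator_of_notMem ht, zero_mul, mul_zero]
        exact zero_le
    · rw [indicator_of_notMem hs, zero_mul, zero_mul]
      exact zero_le)
  have eA := lint_flip d mA (hind fA)
  have eC := lint_flip d mC (hind fC)
  have eB := lint_flip d mB (hind fB)
  rw [lintegral_indicator_one hA] at eA
  rw [lintegral_indicator_one hC] at eC
  rw [lintegral_indicator_one (measurableSet_Bl d)] at eB
  rw [eA, eC, eB, mul_pow]
  calc 2 ^ d * (∫⁻ s, Phi (A.indicator 1) s) * (2 ^ d * ∫⁻ s, Phi (C.indicator 1) s)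
      = (2 ^ d) ^ 2 * ((∫⁻ s, Phi (A.indicator 1) s) * ∫⁻ s, Phi (C.indicator 1) s) := by ring
    _ ≤ (2 ^ d) ^ 2 * (∫⁻ s, Phi ((Bl d).indicator 1) s) ^ 2 := by gcongr

/-- Symmetrisation in all coordinates of a finite set. -/
theorem exists_sym {n : ℕ} {A : Set (Fin (n + 1) → ℝ)} (hA : MeasurableSet A)
    (hs : ∀ x ∈ A, -x ∈ A) (S : Finset (Fin (n + 1))) :
    ∃ A' : Set (Fin (n + 1) → ℝ), MeasurableSet A' ∧ (∀ x ∈ A', -x ∈ A') ∧
      volume A' = volume A ∧ volume (polar A) ≤ volume (polar A') ∧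
      ∀ j ∈ S, ∀ x ∈ A', flip j x ∈ A' := by
  induction S using Finset.induction_on with
  | empty => exact ⟨A, hA, hs, rfl, le_rfl, fun j hj => absurd hj (Finset.notMem_empty j)⟩
  | insert k S _ ih =>
    obtain ⟨A', hA', hs', hv, hp, hfl⟩ := ih
    refine ⟨St k A', measurableSet_St k hA', St_neg k hs', (vol_St k hA').trans hv,
      hp.trans (vol_polar_St k hs'), fun j hj => ?_⟩
    by_cases hjk : j = k
    · rw [hjk]
      exact St_flip_same k A'
    · have hjS : j ∈ S := by
        rcases Finset.mem_insert.1 hj with h | h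
        · exact absurd h hjk
        · exact h
      obtain ⟨l, rfl⟩ := Fin.exists_succAbove_eq hjk
      exact St_flip k l (hfl _ hjS)

/-- Blaschke-Santaló in coordinates. -/
theorem santalo0 {d : ℕ} {A C : Set (Fin d → ℝ)} (hA : MeasurableSet A)
    (hs : ∀ x ∈ A, -x ∈ A) (h : ∀ x ∈ A, ∀ y ∈ C, ∑ i, x i * y i ≤ 1) :
    volume A * volume C ≤ volume (Bl d) ^ 2 := by
  have hC : volume C ≤ volume (polar A) := measure_mono fun y hy x hx => h x hx y hy
  refine (mul_le_mul_right hC (volume A)).trans ?_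
  rcases d with _ | n
  · exact uncond hA (measurableSet_polar A) (fun j => Fin.elim0 j) (fun j => Fin.elim0 j)
      fun x hx y hy => hy x hx
  · obtain ⟨A', hA', _, hv, hp, hfl⟩ := exists_sym hA hs Finset.univ
    rw [← hv]
    refine (mul_le_mul_right hp (volume A')).trans ?_
    exact uncond hA' (measurableSet_polar A') (fun j => hfl j (Finset.mem_univ j))
      (fun j => polar_flip (hfl j (Finset.mem_univ j))) fun x hx y hy => hy x hx

/-- **Blaschke-Santaló** for symmetric measurable sets: if `⟪x, y⟫ ≤ 1` for all `x ∈ A`, `y ∈ C`,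
then `|A| |C| ≤ |B|²`. -/
theorem santalo {d : ℕ} {A C : Set (E d)} (hA : MeasurableSet A)
    (hs : ∀ x ∈ A, -x ∈ A) (h : ∀ x ∈ A, ∀ y ∈ C, inner ℝ x y ≤ 1) :
    volume A * volume C ≤ volume (Metric.closedBall (0 : E d) 1) ^ 2 := by
  set τ : (Fin d → ℝ) → E d := fun x => WithLp.toLp 2 x with hτ
  have hmp : MeasurePreserving τ := PiLp.volume_preserving_toLp (Fin d)
  have hin : ∀ x y : Fin d → ℝ, inner ℝ (τ x) (τ y) = ∑ i, x i * y i := by
    intro x y
    rw [hτ, PiLp.inner_apply]
    refine Finset.sum_congr rfl fun i _ => ?_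
    simp [mul_comm]
  set C' : Set (E d) := ⋂ x ∈ A, {y : E d | inner ℝ x y ≤ 1} with hC'
  have hCm : MeasurableSet C' := by
    refine IsClosed.measurableSet (isClosed_biInter fun x _ => ?_)
    exact isClosed_le (by fun_prop) continuous_const
  have hCC : C ⊆ C' := fun y hy => mem_iInter₂.2 fun x hx => h x hx y hy
  refine (mul_le_mul_right (measure_mono hCC) (volume A)).trans ?_
  have e1 : volume (τ ⁻¹' A) = volume A := hmp.measure_preimage hA.nullMeasurableSet
  have e2 : volume (τ ⁻¹' C') = volume C' := hmp.measure_preimage hCm.nullMeasurableSet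
  have e3 : volume (Bl d) = volume (Metric.closedBall (0 : E d) 1) := by
    rw [← hmp.measure_preimage Metric.isClosed_closedBall.measurableSet.nullMeasurableSet]
    refine congrArg _ ?_
    ext x
    rw [mem_preimage, mem_closedBall_zero_iff]
    unfold Bl
    rw [mem_ofPred_eq, ← sq_le_one_iff₀ (norm_nonneg _), ← real_inner_self_eq_norm_sq, hin]
    simp only [sq]
  rw [← e1, ← e2, ← e3]
  refine santalo0 (hmp.measurable hA) (fun x hx => ?_) fun x hx y hy => ?_
  · exact hs _ hx
  · rw [← hin]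
    exact mem_iInter₂.1 hy _ hx

end Pool.Agent.LibBS39
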