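import Pool.Agent.LibSP74.BasicA
import Pool.Agent.LibBS39.Uncond

/-! Theorem W, part 1: finite partitions into cones and the bound for the potentials. -/

set_option autoImplicit false

open MeasureTheory Set
open scoped ENNReal Pointwise

namespace Pool.Agent.LibBS39

open Pool.Agent.LibSP74

/-- A finite partition of `R^d` into measurable cones which is stable under `x ↦ -x`. -/
structure IsCell {d : ℕ} {ι : Type} (q : E d → ι) (ν : ι → ι) : Prop where
  meas : ∀ i, MeasurableSet (q ⁻¹' {i})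
  smul : ∀ (t : ℝ) (x : E d), 0 < t → q (t • x) = q x
  neg : ∀ x, q (-x) = ν (q x)
  inv : ∀ i, ν (ν i) = i

/-- The volume of a cell. -/
noncomputable def cw {d : ℕ} {ι : Type} (N : E d → ℝ) (q : E d → ι) (i : ι) : ℝ :=
  (volume ({x | N x ≤ 1} ∩ q ⁻¹' {i})).toReal

variable {d : ℕ} {ι : Type} {N : E d → ℝ} {q : E d → ι} {ν : ι → ι}

theorem cw_nonneg (i : ι) : 0 ≤ cw N q i := ENNReal.toReal_nonneg

theorem cell_ne_top (h : IsN N) (i : ι) : volume ({x | N x ≤ 1} ∩ q ⁻¹' {i}) ≠ ∞ :=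
  measure_ne_top_of_subset inter_subset_left (h.isCompact_ball 1).measure_lt_top.ne

theorem isN_norm : IsN (fun x : E d => ‖x‖) where
  cont := continuous_norm
  smul c z := by rw [norm_smul, Real.norm_eq_abs]
  add_le z w := norm_add_le z w
  pos z hz := norm_pos_iff.2 hz

theorem cell_vol (h : IsN N) (hq : IsCell q ν) {c : ℝ} (hc : 0 < c) (i : ι) :
    volume ({x | N x ≤ c} ∩ q ⁻¹' {i}) = ENNReal.ofReal (c ^ d * cw N q i) := by
  have e : ({x | N x ≤ c} ∩ q ⁻¹' {i} : Set (E d)) = c • ({x | N x ≤ 1} ∩ q ⁻¹' {i}) := by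
    ext z
    rw [Set.mem_smul_set_iff_inv_smul_mem₀ hc.ne', mem_inter_iff, mem_inter_iff, mem_preimage,
      mem_preimage, hq.smul c⁻¹ z (inv_pos.2 hc)]
    refine and_congr ?_ Iff.rfl
    rw [mem_ofPred_eq, mem_ofPred_eq, h.smul, abs_of_pos (inv_pos.2 hc), inv_mul_le_iff₀ hc, mul_one]
  rw [e, Measure.addHaar_smul, finrank_euclideanSpace_fin, abs_of_nonneg (pow_nonneg hc.le d),
    ENNReal.ofReal_mul (pow_nonneg hc.le d)]
  unfold cw
  rw [ENNReal.ofReal_toReal (cell_ne_top h i)]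

theorem vol_eq_sum [Fintype ι] (h : IsN N) (hq : IsCell q ν) : ∑ i, cw N q i = vol N := by
  classical
  have hU : {x | N x ≤ 1} = ⋃ i, ({x | N x ≤ 1} ∩ q ⁻¹' {i} : Set (E d)) := by
    rw [← inter_iUnion]
    have : (⋃ i, q ⁻¹' {i}) = univ := by
      ext x
      simp
    rw [this, inter_univ]
  unfold vol cw
  rw [← ENNReal.toReal_sum fun i _ => cell_ne_top h i]
  refine congrArg _ ?_
  conv_rhs => rw [hU]
  rw [measure_iUnion, tsum_fintype]
  · intro i j hij
    refine Disjoint.inter_left' _ (Disjoint.inter_right' _ ?_)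
    exact Disjoint.preimage q (by simpa using hij)
  · intro i
    exact (h.measurableSet_ball 1).inter (hq.meas i)

theorem cw_inv (h : IsN N) (hq : IsCell q ν) (i : ι) : cw N q (ν i) = cw N q i := by
  unfold cw
  have e : ({x | N x ≤ 1} ∩ q ⁻¹' {ν i} : Set (E d)) = -({x | N x ≤ 1} ∩ q ⁻¹' {i}) := by
    ext x
    rw [mem_neg, mem_inter_iff, mem_inter_iff, mem_ofPred_eq, mem_ofPred_eq, h.neg,
      mem_preimage, mem_preimage, hq.neg, mem_singleton_iff, mem_singleton_iff]
    refine and_congr Iff.rfl ⟨fun hx => ?_, fun hx => ?_⟩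
    · rw [hx, hq.inv]
    · rw [← hx, hq.inv]
  rw [e, Measure.measure_neg]

/-- The volume of a set which is a multiple of the ball in every cone. -/
theorem vol_A [Fintype ι] (h : IsN N) (hq : IsCell q ν) {a : ι → ℝ} (ha : ∀ i, 0 < a i) :
    MeasurableSet {x | N x ≤ a (q x)} ∧
      volume {x | N x ≤ a (q x)} = ENNReal.ofReal (∑ i, a i ^ d * cw N q i) := by
  classical
  have hU : {x | N x ≤ a (q x)} = ⋃ i, ({x | N x ≤ a i} ∩ q ⁻¹' {i} : Set (E d)) := by
    ext x
    rw [mem_ofPred_eq, mem_iUnion]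
    constructor
    · intro hx
      exact ⟨q x, hx, rfl⟩
    · rintro ⟨i, hx, hi⟩
      rw [mem_preimage, mem_singleton_iff] at hi
      rw [hi]
      exact hx
  have hm : ∀ i, MeasurableSet ({x | N x ≤ a i} ∩ q ⁻¹' {i} : Set (E d)) := fun i =>
    (h.measurableSet_ball _).inter (hq.meas i)
  refine ⟨?_, ?_⟩
  · rw [hU]
    exact MeasurableSet.iUnion hm
  · rw [hU, measure_iUnion _ hm, tsum_fintype, ENNReal.ofReal_sum_of_nonneg]
    · exact Finset.sum_congr rfl fun i _ => cell_vol h hq (ha i) i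
    · intro i _
      exact mul_nonneg (pow_nonneg (ha i).le _) (cw_nonneg i)
    · intro i j hij
      refine Disjoint.inter_left' _ (Disjoint.inter_right' _ ?_)
      exact Disjoint.preimage q (by simpa using hij)

end Pool.Agent.LibBS39
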