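import Pool.Agent.LibBS39.W
import Pool.Agent.LibSP52.Defs

/-! Theorem W, part 4: the coupling. -/

set_option autoImplicit false

open MeasureTheory Set
open scoped ENNReal Pointwise

namespace Pool.Agent.LibBS39

open Pool.Agent.LibSP74 Pool.Agent.LibSP52

theorem lt_cost {d m : ℕ} {N : E d → ℝ} (h : IsN N) (S : ℝ) (hd : d ≠ 0)
    (hS : vol N = S ^ d * vol (nn : E d → ℝ))
    (c : Ix d m → Ix d m → ℝ) (hc : ∀ x y : E d, FF N x y ≤ c (qc d m x) (qc d m y))
    (hcn : ∀ i j, c (nu d m i) (nu d m j) = c i j) :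
    ∃ p : Ix d m → Ix d m → ℝ, (∀ i j, 0 ≤ p i j) ∧ (∀ i, ∑ j, p i j = wt N (qc d m) i) ∧
      (∀ j, ∑ i, p i j = wt nn (qc d m) j) ∧ S ≤ ∑ i, ∑ j, p i j * c i j := by
  have hq := isCell_qc d m
  refine exists_plan _ _ (fun i => wt_nonneg i) (fun i => wt_nonneg i) (wt_sum h hq)
    (wt_sum isN_nn hq) c S fun φ ψ hφψ => ?_
  set φ' : Ix d m → ℝ := fun i => (φ i + φ (nu d m i)) / 2 with hφ'
  set ψ' : Ix d m → ℝ := fun i => (ψ i + ψ (nu d m i)) / 2 with hψ'
  have hbij : Function.Bijective (nu d m) := Function.Involutive.bijective hq.inv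
  have hsum : ∀ {M : E d → ℝ} (_ : IsN M) (χ : Ix d m → ℝ),
      ∑ i, wt M (qc d m) i * ((χ i + χ (nu d m i)) / 2) = ∑ i, wt M (qc d m) i * χ i := by
    intro M hM χ
    have h1 : ∑ i, wt M (qc d m) i * χ (nu d m i) = ∑ i, wt M (qc d m) i * χ i := by
      rw [← hbij.sum_comp fun i => wt M (qc d m) i * χ i]
      exact Finset.sum_congr rfl fun i _ => by rw [wt_inv hM hq]
    have h2 : ∀ i, wt M (qc d m) i * ((χ i + χ (nu d m i)) / 2) =
        (wt M (qc d m) i * χ i) / 2 + (wt M (qc d m) i * χ (nu d m i)) / 2 := fun i => by ring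
    rw [Finset.sum_congr rfl fun i _ => h2 i, Finset.sum_add_distrib, ← Finset.sum_div,
      ← Finset.sum_div, h1]
    ring
  obtain ⟨hpos, hv⟩ := value_ge hd h hq (φ := φ') (ψ := ψ') (fun i => by
    rw [hφ']
    change (φ (nu d m i) + φ (nu d m (nu d m i))) / 2 = (φ i + φ (nu d m i)) / 2
    rw [hq.inv, add_comm]) (fun x y => by
    refine (hc x y).trans ?_
    have h1 := hφψ (qc d m x) (qc d m y)
    have h2 := hφψ (nu d m (qc d m x)) (nu d m (qc d m y))
    rw [hcn] at h2
    change _ ≤ (φ (qc d m x) + φ (nu d m (qc d m x))) / 2 +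
      (ψ (qc d m y) + ψ (nu d m (qc d m y))) / 2
    linarith)
  have e1 : ∑ i, wt N (qc d m) i * φ' i = ∑ i, wt N (qc d m) i * φ i := hsum h φ
  have e2 : ∑ i, wt nn (qc d m) i * ψ' i = ∑ i, wt nn (qc d m) i * ψ i := hsum isN_nn ψ
  rw [e1, e2] at hpos hv
  rw [hS] at hv
  have h3 := le_of_mul_le_mul_right hv (isN_nn (d := d)).vol_pos
  exact le_of_pow_le_pow_left₀ hd hpos.le h3

/-! ### The laws of the cells -/

variable {d : ℕ} {ι : Type} {N : E d → ℝ} {q : E d → ι} {ν : ι → ι}

/-- The distribution of `x / N x` for `x` uniform in the part of the unit ball in a cell. -/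
noncomputable def cl (N : E d → ℝ) (q : E d → ι) (i : ι) : Measure (E d) :=
  (volume ({x : E d | N x ≤ 1} ∩ q ⁻¹' {i}))⁻¹ •
    Measure.map (fun x : E d => (N x)⁻¹ • x) (volume.restrict ({x : E d | N x ≤ 1} ∩ q ⁻¹' {i}))

theorem measurable_dir (h : IsN N) : Measurable fun x : E d => (N x)⁻¹ • x :=
  (h.cont.measurable.inv).smul measurable_id

theorem cell_ne_zero {i : ι} (hi : 0 < cw N q i) :
    volume ({x : E d | N x ≤ 1} ∩ q ⁻¹' {i}) ≠ 0 := by
  intro h0
  unfold cw at hi
  rw [h0, ENNReal.toReal_zero] at hi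
  exact lt_irrefl _ hi

theorem cl_prob (h : IsN N) {i : ι} (hi : 0 < cw N q i) : IsProbabilityMeasure (cl N q i) := by
  refine ⟨?_⟩
  unfold cl
  rw [Measure.smul_apply, Measure.map_apply (measurable_dir h) MeasurableSet.univ, preimage_univ,
    Measure.restrict_apply_univ, smul_eq_mul, ENNReal.inv_mul_cancel (cell_ne_zero hi)
      (cell_ne_top h i)]

theorem cl_zero {i : ι} (hi : volume ({x : E d | N x ≤ 1} ∩ q ⁻¹' {i}) = 0) : cl N q i = 0 := by
  unfold cl
  rw [Measure.restrict_eq_zero.2 hi, Measure.map_zero, smul_zero]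

theorem cl_fin (h : IsN N) (i : ι) : IsFiniteMeasure (cl N q i) := by
  by_cases hi : volume ({x : E d | N x ≤ 1} ∩ q ⁻¹' {i}) = 0
  · rw [cl_zero hi]
    infer_instance
  · have : 0 < cw N q i := ENNReal.toReal_pos hi (cell_ne_top h i)
    have := cl_prob h this
    infer_instance

theorem wt_smul_cl (h : IsN N) (i : ι) : ENNReal.ofReal (wt N q i) • cl N q i =
    (volume {x : E d | N x ≤ 1})⁻¹ • Measure.map (fun x : E d => (N x)⁻¹ • x)
      (volume.restrict ({x : E d | N x ≤ 1} ∩ q ⁻¹' {i})) := by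
  by_cases hi : volume ({x : E d | N x ≤ 1} ∩ q ⁻¹' {i}) = 0
  · rw [cl_zero hi, Measure.restrict_eq_zero.2 hi, Measure.map_zero, smul_zero, smul_zero]
  · unfold cl wt cw
    rw [smul_smul]
    refine congrArg (· • _) ?_
    have hv : 0 < vol N := h.vol_pos
    rw [ENNReal.ofReal_div_of_pos hv, ENNReal.ofReal_toReal (cell_ne_top h i)]
    unfold vol
    rw [ENNReal.ofReal_toReal (h.isCompact_ball 1).measure_lt_top.ne, div_eq_mul_inv, mul_assoc,
      mul_comm (volume {x : E d | N x ≤ 1})⁻¹, ← mul_assoc,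
      ENNReal.mul_inv_cancel hi (cell_ne_top h i), one_mul]

theorem cm_eq_sum [Fintype ι] (h : IsN N) (hq : IsCell q ν) :
    cm N = ∑ i, ENNReal.ofReal (wt N q i) • cl N q i := by
  classical
  have hU : {x | N x ≤ 1} = ⋃ i, ({x | N x ≤ 1} ∩ q ⁻¹' {i} : Set (E d)) := by
    rw [← inter_iUnion]
    have : (⋃ i, q ⁻¹' {i}) = univ := by
      ext x
      simp
    rw [this, inter_univ]
  have e : volume.restrict {x : E d | N x ≤ 1} =
      ∑ i, volume.restrict ({x | N x ≤ 1} ∩ q ⁻¹' {i} : Set (E d)) := by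
    conv_lhs => rw [hU]
    rw [Measure.restrict_iUnion, Measure.sum_fintype]
    · intro i j hij
      refine Disjoint.inter_left' _ (Disjoint.inter_right' _ ?_)
      exact Disjoint.preimage q (by simpa using hij)
    · intro i
      exact (h.measurableSet_ball 1).inter (hq.meas i)
  rw [Finset.sum_congr rfl fun i _ => wt_smul_cl h i, ← Finset.smul_sum]
  unfold cm
  rw [e, Measure.map_finset_sum' (measurable_dir h).aemeasurable]

theorem cm_univ (h : IsN N) : cm N univ = 1 := by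
  unfold cm
  rw [Measure.smul_apply, Measure.map_apply (measurable_dir h) MeasurableSet.univ, preimage_univ,
    Measure.restrict_apply_univ, smul_eq_mul, ENNReal.inv_mul_cancel _
      (h.isCompact_ball 1).measure_lt_top.ne]
  intro h0
  have := h.vol_pos
  unfold vol at this
  rw [h0, ENNReal.toReal_zero] at this
  exact lt_irrefl _ this

theorem cl_ae (h : IsN N) (hq : IsCell q ν) (i : ι) {P : E d → Prop} (hm : MeasurableSet {u | P u})
    (hP : ∀ x, q x = i → P ((N x)⁻¹ • x)) : ∀ᵐ u ∂(cl N q i), P u := by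
  unfold cl
  refine Measure.ae_smul_measure ?_ _
  rw [ae_map_iff (measurable_dir h).aemeasurable hm]
  refine (ae_restrict_iff' ((h.measurableSet_ball 1).inter (hq.meas i))).2 (ae_of_all _ ?_)
  intro x hx
  exact hP x hx.2

theorem cl_prod_ae (h : IsN N) (hq : IsCell q ν) (i j : ι) {s : Set (E d × E d)}
    (hs : MeasurableSet s)
    (hP : ∀ x y, q x = i → q y = j → ((N x)⁻¹ • x, (nn y)⁻¹ • y) ∈ s) :
    ∀ᵐ p ∂((cl N q i).prod (cl nn q j)), p ∈ s := by
  have := cl_fin (q := q) h i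
  have := cl_fin (q := q) (isN_nn (d := d)) j
  rw [Measure.ae_prod_mem_iff_ae_ae_mem hs]
  refine cl_ae h hq i ?_ ?_
  · have e : {u : E d | ∀ᵐ v ∂(cl nn q j), (u, v) ∈ s} =
        (fun u => cl nn q j (Prod.mk u ⁻¹' sᶜ)) ⁻¹' {0} := by
      ext u
      rw [mem_ofPred_eq, mem_preimage, mem_singleton_iff, ae_iff]
      exact Iff.rfl
    rw [e]
    exact measurable_measure_prodMk_left hs.compl (measurableSet_singleton _)
  · intro x hx
    refine cl_ae isN_nn hq j ?_ ?_
    · exact measurable_prodMk_left hs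
    · intro y hy
      exact hP x y hx hy

/-- **Theorem W.** The coupling. -/
theorem exists_cpl (hd : d ≠ 0) (h : IsN N) {δ : ℝ} (hδ : 0 < δ) :
    ∃ π : Measure (E d × E d), IsCpl N π ∧
      (vol N / vol (nrm d)) ^ ((1 : ℝ) / d) - δ ≤ ∫ p, inner ℝ p.1 p.2 ∂π := by
  classical
  obtain ⟨m, hm0, hm⟩ := exists_fine hd h hδ
  obtain ⟨R, hR0, hR⟩ := exists_bound h
  have hq := isCell_qc d m
  have hvN := h.vol_pos
  have hvB : 0 < vol (nn : E d → ℝ) := isN_nn.vol_pos
  set S : ℝ := (vol N / vol (nrm d)) ^ ((1 : ℝ) / d) with hSdef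
  have hSd : vol N = S ^ d * vol (nn : E d → ℝ) := by
    have h1 : S ^ d = vol N / vol (nn : E d → ℝ) := by
      have h2 : 0 ≤ vol N / vol (nrm d) := div_nonneg hvN.le hvB.le
      rw [hSdef, ← Real.rpow_natCast, ← Real.rpow_mul h2,
        one_div, inv_mul_cancel₀ (Nat.cast_ne_zero.2 hd), Real.rpow_one]
      rfl
    rw [h1, div_mul_cancel₀ _ hvB.ne']
  set c : Ix d m → Ix d m → ℝ := fun i j =>
    sSup {t : ℝ | ∃ x y : E d, qc d m x = i ∧ qc d m y = j ∧ FF N x y = t} with hc
  have hFc : ∀ x y : E d, FF N x y ≤ c (qc d m x) (qc d m y) := by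
    intro x y
    refine le_csSup ⟨R, ?_⟩ ⟨x, y, rfl, rfl, rfl⟩
    rintro t ⟨x', y', -, -, rfl⟩
    exact (le_abs_self _).trans (abs_FF_le hR x' y')
  have hcn : ∀ i j, c (nu d m i) (nu d m j) = c i j := by
    intro i j
    refine congrArg sSup (Set.ext fun t => ?_)
    constructor
    · rintro ⟨x, y, hx, hy, rfl⟩
      exact ⟨-x, -y, by rw [hq.neg, hx, hq.inv], by rw [hq.neg, hy, hq.inv], FF_neg h x y⟩
    · rintro ⟨x, y, hx, hy, rfl⟩
      exact ⟨-x, -y, by rw [hq.neg, hx], by rw [hq.neg, hy], FF_neg h x y⟩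
  have hcδ : ∀ x y : E d, x ≠ 0 → y ≠ 0 → c (qc d m x) (qc d m y) - δ ≤ FF N x y := by
    intro x y hx hy
    rw [sub_le_iff_le_add]
    refine csSup_le ⟨_, x, y, rfl, rfl, rfl⟩ ?_
    rintro t ⟨x', y', hx', hy', rfl⟩
    have hx1 : qq d m x' = qq d m x := congrArg Subtype.val hx'
    have hy1 : qq d m y' = qq d m y := congrArg Subtype.val hy'
    have hx0 : x' ≠ 0 := by
      rintro rfl
      rw [qq_zero] at hx1
      exact hm0 x hx hx1.symm
    have hy0 : y' ≠ 0 := by
      rintro rfl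
      rw [qq_zero] at hy1
      exact hm0 y hy hy1.symm
    have h1 := hm x' x y' y hx0 hx hy0 hy hx1 hy1
    have := (abs_le.1 h1).2
    linarith
  obtain ⟨p, hp0, hp1, hp2, hpS⟩ := lt_cost h S hd hSd c hFc hcn
  have hpN : ∀ i j, 0 < p i j → 0 < cw N (qc d m) i := by
    intro i j hij
    have h1 : p i j ≤ wt N (qc d m) i := by
      rw [← hp1 i]
      exact Finset.single_le_sum (fun k _ => hp0 i k) (Finset.mem_univ j)
    have h2 : 0 < wt N (qc d m) i := hij.trans_le h1
    unfold wt at h2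
    exact (div_pos_iff_of_pos_right hvN).1 h2
  have hpn : ∀ i j, 0 < p i j → 0 < cw nn (qc d m) j := by
    intro i j hij
    have h1 : p i j ≤ wt nn (qc d m) j := by
      rw [← hp2 j]
      exact Finset.single_le_sum (fun k _ => hp0 k j) (Finset.mem_univ i)
    have h2 : 0 < wt nn (qc d m) j := hij.trans_le h1
    unfold wt at h2
    exact (div_pos_iff_of_pos_right hvB).1 h2
  have hfinN : ∀ i, IsFiniteMeasure (cl N (qc d m) i) := fun i => cl_fin h i
  have hfinn : ∀ i, IsFiniteMeasure (cl (nn : E d → ℝ) (qc d m) i) := fun i => cl_fin isN_nn i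
  set π : Measure (E d × E d) := ∑ i, ∑ j, ENNReal.ofReal (p i j) •
    (cl N (qc d m) i).prod (cl nn (qc d m) j) with hπ
  have hfst : π.map Prod.fst = cm N := by
    rw [cm_eq_sum h hq, hπ, Measure.map_finset_sum' measurable_fst.aemeasurable]
    refine Finset.sum_congr rfl fun i _ => ?_
    rw [Measure.map_finset_sum' measurable_fst.aemeasurable, ← hp1 i,
      ENNReal.ofReal_sum_of_nonneg fun j _ => hp0 i j, Finset.sum_smul]
    refine Finset.sum_congr rfl fun j _ => ?_
    rw [Measure.map_smul, Measure.map_fst_prod]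
    rcases (hp0 i j).eq_or_lt with h0 | h0
    · rw [← h0, ENNReal.ofReal_zero, zero_smul, zero_smul]
    · have := cl_prob (isN_nn (d := d)) (hpn i j h0)
      rw [measure_univ, one_smul]
  have hsnd : π.map Prod.snd = sg d := by
    have e : sg d = ∑ j, ENNReal.ofReal (wt nn (qc d m) j) • cl nn (qc d m) j :=
      cm_eq_sum isN_nn hq
    rw [e, hπ, Measure.map_finset_sum' measurable_snd.aemeasurable]
    have e2 : ∀ i, Measure.map Prod.snd (∑ j, ENNReal.ofReal (p i j) •
        (cl N (qc d m) i).prod (cl nn (qc d m) j)) =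
        ∑ j, ENNReal.ofReal (p i j) • cl nn (qc d m) j := by
      intro i
      rw [Measure.map_finset_sum' measurable_snd.aemeasurable]
      refine Finset.sum_congr rfl fun j _ => ?_
      rw [Measure.map_smul, Measure.map_snd_prod]
      rcases (hp0 i j).eq_or_lt with h0 | h0
      · rw [← h0, ENNReal.ofReal_zero, zero_smul, zero_smul]
      · have := cl_prob h (hpN i j h0)
        rw [measure_univ, one_smul]
    rw [Finset.sum_congr rfl fun i _ => e2 i, Finset.sum_comm]
    refine Finset.sum_congr rfl fun j _ => ?_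
    rw [← hp2 j, ENNReal.ofReal_sum_of_nonneg fun i _ => hp0 i j, Finset.sum_smul]
  have hprob : IsProbabilityMeasure π := by
    refine ⟨?_⟩
    have h1 := cm_univ h
    rw [← hfst, Measure.map_apply measurable_fst MeasurableSet.univ, preimage_univ] at h1
    exact h1
  refine ⟨π, ⟨hprob, hfst, hsnd⟩, ?_⟩
  -- the integral
  have hbd : ∀ i j, ∀ᵐ z ∂((cl N (qc d m) i).prod (cl nn (qc d m) j)),
      ‖(inner ℝ z.1 z.2 : ℝ)‖ ≤ R := by
    intro i j
    refine cl_prod_ae h hq i j (s := {z | ‖(inner ℝ z.1 z.2 : ℝ)‖ ≤ R}) ?_ ?_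
    · exact measurableSet_le (by fun_prop) measurable_const
    · intro x y _ _
      exact abs_FF_le hR x y
  have hint : ∀ i j, Integrable (fun z : E d × E d => (inner ℝ z.1 z.2 : ℝ))
      ((cl N (qc d m) i).prod (cl nn (qc d m) j)) := fun i j =>
    Integrable.of_bound (by fun_prop) R (hbd i j)
  have hlow : ∀ i j, 0 < p i j → c i j - δ ≤
      ∫ z, inner ℝ z.1 z.2 ∂((cl N (qc d m) i).prod (cl nn (qc d m) j)) := by
    intro i j hij
    have := cl_prob h (hpN i j hij)
    have := cl_prob (isN_nn (d := d)) (hpn i j hij)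
    have h1 : ∀ᵐ z ∂((cl N (qc d m) i).prod (cl nn (qc d m) j)), c i j - δ ≤ inner ℝ z.1 z.2 := by
      -- the cells do not contain `0`
      have hne : ∀ {M : E d → ℝ} {k : Ix d m} (_ : 0 < cw M (qc d m) k),
          ∀ x, qc d m x = k → x ≠ 0 := by
        intro M k hk x hx hx0
        have : Nonempty (Fin d) := ⟨⟨0, Nat.pos_of_ne_zero hd⟩⟩
        have : Nontrivial (E d) := inferInstance
        refine cell_ne_zero hk (measure_mono_null (t := {(0 : E d)}) ?_ (measure_singleton 0))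
        rintro z ⟨-, hz⟩
        rw [mem_preimage, mem_singleton_iff] at hz
        by_contra hz0
        refine hm0 z hz0 ?_
        have h3 : qc d m z = qc d m x := by rw [hz, hx]
        have h4 : qq d m z = qq d m x := congrArg Subtype.val h3
        rw [h4, hx0, qq_zero]
      refine cl_prod_ae h hq i j (s := {z | c i j - δ ≤ inner ℝ z.1 z.2}) ?_ ?_
      · exact measurableSet_le measurable_const (by fun_prop)
      · intro x y hx hy
        have h5 := hcδ x y (hne (hpN i j hij) x hx) (hne (hpn i j hij) y hy)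
        rw [hx, hy] at h5
        exact h5
    calc c i j - δ = ∫ _ : E d × E d, (c i j - δ) ∂((cl N (qc d m) i).prod (cl nn (qc d m) j)) := by
          rw [integral_const, measureReal_def, measure_univ, ENNReal.toReal_one, one_smul]
      _ ≤ _ := integral_mono_ae (integrable_const _) (hint i j) h1
  rw [hπ, integral_finsetSum_measure fun i _ => ?_]
  · have e3 : ∀ i, ∫ z, inner ℝ z.1 z.2 ∂(∑ j, ENNReal.ofReal (p i j) •
        (cl N (qc d m) i).prod (cl nn (qc d m) j)) =
        ∑ j, p i j * ∫ z, inner ℝ z.1 z.2 ∂((cl N (qc d m) i).prod (cl nn (qc d m) j)) := by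
      intro i
      rw [integral_finsetSum_measure fun j _ => (hint i j).smul_measure ENNReal.ofReal_ne_top]
      refine Finset.sum_congr rfl fun j _ => ?_
      rw [integral_smul_measure, ENNReal.toReal_ofReal (hp0 i j), smul_eq_mul]
    rw [Finset.sum_congr rfl fun i _ => e3 i]
    have h2 : ∑ i, ∑ j, p i j * (c i j - δ) ≤
        ∑ i, ∑ j, p i j * ∫ z, inner ℝ z.1 z.2 ∂((cl N (qc d m) i).prod (cl nn (qc d m) j)) := by
      refine Finset.sum_le_sum fun i _ => Finset.sum_le_sum fun j _ => ?_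
      rcases (hp0 i j).eq_or_lt with h0 | h0
      · rw [← h0, zero_mul, zero_mul]
      · exact mul_le_mul_of_nonneg_left (hlow i j h0) (hp0 i j)
    refine le_trans ?_ h2
    have e4 : ∑ i, ∑ j, p i j * (c i j - δ) = (∑ i, ∑ j, p i j * c i j) - δ := by
      have e5 : ∀ i, ∑ j, p i j * (c i j - δ) = (∑ j, p i j * c i j) - wt N (qc d m) i * δ := by
        intro i
        rw [← hp1 i, Finset.sum_mul, ← Finset.sum_sub_distrib]
        exact Finset.sum_congr rfl fun j _ => by ring
      rw [Finset.sum_congr rfl fun i _ => e5 i, Finset.sum_sub_distrib, ← Finset.sum_mul,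
        wt_sum h hq, one_mul]
    rw [e4]
    linarith
  · rw [integrable_finsetSum_measure]
    exact fun j _ => (hint i j).smul_measure ENNReal.ofReal_ne_top

/-- **Theorem W.** -/
theorem thmW (h : IsN N) (hd : d ≠ 0) (S : ℝ)
    (hS : ∀ π : Measure (E d × E d), IsCpl N π → ∫ p, inner ℝ p.1 p.2 ∂π ≤ S) :
    0 ≤ S ∧ vol N / vol (nrm d) ≤ S ^ d := by
  have hvN := h.vol_pos
  have hvB : 0 < vol (nrm d) := (isN_nrm d).vol_pos
  have hr : 0 < vol N / vol (nrm d) := div_pos hvN hvB
  have h1 : (vol N / vol (nrm d)) ^ ((1 : ℝ) / d) ≤ S := by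
    refine le_of_forall_pos_sub_le fun δ hδ => ?_
    obtain ⟨π, hπ, h2⟩ := exists_cpl hd h hδ
    exact h2.trans (hS π hπ)
  have h0 : 0 < (vol N / vol (nrm d)) ^ ((1 : ℝ) / d) := Real.rpow_pos_of_pos hr _
  refine ⟨h0.le.trans h1, ?_⟩
  have h3 := pow_le_pow_left₀ h0.le h1 d
  rwa [← Real.rpow_natCast, ← Real.rpow_mul hr.le, one_div, inv_mul_cancel₀
    (Nat.cast_ne_zero.2 hd), Real.rpow_one] at h3

end Pool.Agent.LibBS39
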