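import Pool.Agent.LibBS39.Cells

/-! Theorem W, part 2: the value of a pair of potentials (exponential sets and Blaschke-Santaló). -/

set_option autoImplicit false

open MeasureTheory Set
open scoped ENNReal Pointwise

namespace Pool.Agent.LibBS39

open Pool.Agent.LibSP74

variable {d : ℕ} {ι : Type} {N : E d → ℝ} {q : E d → ι} {ν : ι → ι}

/-- The euclidean norm. -/
noncomputable def nn {d : ℕ} : E d → ℝ := fun x => ‖x‖

theorem isN_nn : IsN (nn : E d → ℝ) := isN_norm

/-- The weights. -/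
noncomputable def wt (N : E d → ℝ) (q : E d → ι) (i : ι) : ℝ := cw N q i / vol N

theorem wt_nonneg (i : ι) : 0 ≤ wt N q i := div_nonneg (cw_nonneg i) ENNReal.toReal_nonneg

theorem wt_sum [Fintype ι] (h : IsN N) (hq : IsCell q ν) : ∑ i, wt N q i = 1 := by
  unfold wt
  rw [← Finset.sum_div, vol_eq_sum h hq, div_self h.vol_pos.ne']

theorem wt_inv (h : IsN N) (hq : IsCell q ν) (i : ι) : wt N q (ν i) = wt N q i := by
  unfold wt
  rw [cw_inv h hq]

theorem cw_pos_iff (h : IsN N) (hq : IsCell q ν) (i : ι) : 0 < cw N q i ↔ volume (q ⁻¹' {i}) ≠ 0 := by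
  constructor
  · intro h1 h0
    have : volume ({x | N x ≤ 1} ∩ q ⁻¹' {i}) = 0 := measure_inter_null_of_null_right _ h0
    unfold cw at h1
    rw [this, ENNReal.toReal_zero] at h1
    exact lt_irrefl _ h1
  · intro h1
    by_contra h2
    have h3 : cw N q i = 0 := le_antisymm (not_lt.1 h2) (cw_nonneg i)
    refine h1 ?_
    have hU : q ⁻¹' {i} = ⋃ n : ℕ, ({x | N x ≤ (n : ℝ) + 1} ∩ q ⁻¹' {i} : Set (E d)) := by
      ext x
      rw [mem_iUnion]
      constructor
      · intro hx
        obtain ⟨n, hn⟩ := exists_nat_ge (N x)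
        exact ⟨n, by
          rw [mem_inter_iff, mem_ofPred_eq]
          exact ⟨by linarith, hx⟩⟩
      · rintro ⟨n, _, hx⟩
        exact hx
    rw [hU, measure_iUnion_null_iff]
    intro n
    rw [cell_vol h hq (by positivity), h3, mul_zero, ENNReal.ofReal_zero]

/-- The value of a symmetric pair of potentials. -/
theorem value_ge [Fintype ι] (hd : d ≠ 0) (h : IsN N) (hq : IsCell q ν) {φ ψ : ι → ℝ}
    (hφ : ∀ i, φ (ν i) = φ i)
    (hc : ∀ x y : E d, inner ℝ ((N x)⁻¹ • x) (‖y‖⁻¹ • y) ≤ φ (q x) + ψ (q y)) :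
    0 < ∑ i, wt N q i * φ i + ∑ i, wt nn q i * ψ i ∧
    vol N ≤ (∑ i, wt N q i * φ i + ∑ i, wt nn q i * ψ i) ^ d * vol (nn : E d → ℝ) := by
  classical
  set φ0 := ∑ i, wt N q i * φ i with hφ0
  set ψ0 := ∑ i, wt nn q i * ψ i with hψ0
  set S := φ0 + ψ0 with hS
  have hvN := h.vol_pos
  have hvB : 0 < vol (nn : E d → ℝ) := isN_nn.vol_pos
  have habs : ∀ x y : E d, |inner ℝ ((N x)⁻¹ • x) (‖y‖⁻¹ • y)| ≤ φ (q x) + ψ (q y) := by
    intro x y
    rw [abs_le]
    refine ⟨?_, hc x y⟩
    have h1 := hc (-x) y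
    rw [hq.neg, hφ, h.neg, smul_neg, inner_neg_left] at h1
    linarith
  -- `S = ∑ ∑ w σ (φ + ψ)`
  have hSS : S = ∑ i, ∑ j, wt N q i * wt nn q j * (φ i + ψ j) := by
    have e1 : φ0 = ∑ i, ∑ j, wt N q i * wt nn q j * φ i := by
      rw [hφ0]
      refine Finset.sum_congr rfl fun i _ => ?_
      rw [← Finset.sum_mul, ← Finset.mul_sum, wt_sum isN_nn hq, mul_one]
    have e2 : ψ0 = ∑ i, ∑ j, wt N q i * wt nn q j * ψ j := by
      rw [hψ0, Finset.sum_comm]
      refine Finset.sum_congr rfl fun j _ => ?_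
      rw [← Finset.sum_mul, ← Finset.sum_mul, wt_sum h hq, one_mul]
    rw [hS, e1, e2, ← Finset.sum_add_distrib]
    refine Finset.sum_congr rfl fun i _ => ?_
    rw [← Finset.sum_add_distrib]
    exact Finset.sum_congr rfl fun j _ => by ring
  have hterm : ∀ i j, 0 ≤ wt N q i * wt nn q j * (φ i + ψ j) := by
    intro i j
    rcases (wt_nonneg (N := N) (q := q) i).eq_or_lt with h0 | h0
    · rw [← h0, zero_mul, zero_mul]
    · rcases (wt_nonneg (N := nn) (q := q) j).eq_or_lt with h0' | h0'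
      · rw [← h0', mul_zero, zero_mul]
      · refine mul_nonneg (mul_nonneg h0.le h0'.le) ?_
        have h1 : 0 < cw N q i := by
          by_contra hcon
          have := le_antisymm (not_lt.1 hcon) (cw_nonneg i)
          unfold wt at h0
          rw [this, zero_div] at h0
          exact lt_irrefl _ h0
        have h2 : 0 < cw nn q j := by
          by_contra hcon
          have := le_antisymm (not_lt.1 hcon) (cw_nonneg j)
          unfold wt at h0'
          rw [this, zero_div] at h0'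
          exact lt_irrefl _ h0'
        obtain ⟨x, hx⟩ := nonempty_of_measure_ne_zero ((cw_pos_iff h hq i).1 h1)
        obtain ⟨y, hy⟩ := nonempty_of_measure_ne_zero ((cw_pos_iff isN_nn hq j).1 h2)
        rw [mem_preimage, mem_singleton_iff] at hx hy
        rw [← hx, ← hy]
        exact (abs_nonneg _).trans (habs x y)
  have hSpos : 0 < S := by
    obtain ⟨i, hi⟩ : ∃ i, 0 < wt N q i := by
      by_contra hcon
      push Not at hcon
      have h1 : ∑ i, wt N q i ≤ 0 := Finset.sum_nonpos fun i _ => hcon i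
      rw [wt_sum h hq] at h1
      linarith
    have hi1 : 0 < cw N q i := by
      by_contra hcon
      have := le_antisymm (not_lt.1 hcon) (cw_nonneg i)
      unfold wt at hi
      rw [this, zero_div] at hi
      exact lt_irrefl _ hi
    have hv := (cw_pos_iff h hq i).1 hi1
    have hi2 : 0 < wt nn q i := div_pos ((cw_pos_iff isN_nn hq i).2 hv) hvB
    -- a point `x ≠ 0` of the cell
    have hne : ∃ x ∈ q ⁻¹' {i}, x ≠ 0 := by
      by_contra hcon
      push Not at hcon
      have hsub : q ⁻¹' {i} ⊆ {(0 : E d)} := fun x hx => hcon x hx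
      have : Nonempty (Fin d) := ⟨⟨0, Nat.pos_of_ne_zero hd⟩⟩
      have : Nontrivial (E d) := inferInstance
      exact hv (measure_mono_null hsub (measure_singleton 0))
    obtain ⟨x, hx, hx0⟩ := hne
    rw [mem_preimage, mem_singleton_iff] at hx
    have h1 := hc x x
    rw [hx, real_inner_smul_left, real_inner_smul_right, real_inner_self_eq_norm_sq] at h1
    have hnx : 0 < ‖x‖ := norm_pos_iff.2 hx0
    have hNx : 0 < N x := h.pos x hx0
    have h2 : 0 < (N x)⁻¹ * (‖x‖⁻¹ * ‖x‖ ^ 2) := by positivity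
    have h3 : 0 < wt N q i * wt nn q i * (φ i + ψ i) := mul_pos (mul_pos hi hi2) (by linarith)
    rw [hSS]
    refine Finset.sum_pos' (fun a _ => Finset.sum_nonneg fun b _ => hterm a b) ⟨i, Finset.mem_univ i, ?_⟩
    exact Finset.sum_pos' (fun b _ => hterm i b) ⟨i, Finset.mem_univ i, h3⟩
  refine ⟨hSpos, ?_⟩
  -- the sets
  set r := (Real.sqrt S)⁻¹ with hr
  have hrpos : 0 < r := inv_pos.2 (Real.sqrt_pos.2 hSpos)
  have hr2 : r * r = S⁻¹ := by
    rw [hr, ← mul_inv, Real.mul_self_sqrt hSpos.le]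
  set a : ι → ℝ := fun i => r * Real.exp (-(φ i - φ0) / S) with ha
  set b : ι → ℝ := fun i => r * Real.exp (-(ψ i - ψ0) / S) with hb
  have hapos : ∀ i, 0 < a i := fun i => mul_pos hrpos (Real.exp_pos _)
  have hbpos : ∀ i, 0 < b i := fun i => mul_pos hrpos (Real.exp_pos _)
  obtain ⟨mA, vA⟩ := vol_A h hq hapos
  obtain ⟨mB, vB⟩ := vol_A isN_nn hq hbpos
  have hin : ∀ x ∈ {x | N x ≤ a (q x)}, ∀ y ∈ {y : E d | nn y ≤ b (q y)}, inner ℝ x y ≤ 1 := by
    intro x hx y hy
    rw [mem_ofPred_eq] at hx hy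
    by_cases hx0 : x = 0
    · rw [hx0, inner_zero_left]
      exact zero_le_one
    by_cases hy0 : y = 0
    · rw [hy0, inner_zero_right]
      exact zero_le_one
    have hNx : 0 < N x := h.pos x hx0
    have hny : 0 < ‖y‖ := norm_pos_iff.2 hy0
    set c := inner ℝ ((N x)⁻¹ • x) (‖y‖⁻¹ • y) with hcdef
    have e1 : inner ℝ x y = N x * ‖y‖ * c := by
      rw [hcdef, real_inner_smul_left, real_inner_smul_right]
      field_simp
    rcases le_or_gt c 0 with hc0 | hc0
    · rw [e1]
      exact (mul_nonpos_of_nonneg_of_nonpos (mul_nonneg hNx.le hny.le) hc0).trans zero_le_one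
    · set t := (φ (q x) + ψ (q y)) / S with ht
      have hct : c ≤ t * S := by
        rw [ht, div_mul_cancel₀ _ hSpos.ne']
        exact hc x y
      have h1 : N x * ‖y‖ ≤ a (q x) * b (q y) := mul_le_mul hx hy hny.le (hapos _).le
      have e2 : a (q x) * b (q y) = S⁻¹ * Real.exp (1 - t) := by
        have e3 : Real.exp (-(φ (q x) - φ0) / S) * Real.exp (-(ψ (q y) - ψ0) / S) =
            Real.exp (1 - t) := by
          rw [← Real.exp_add]
          refine congrArg _ ?_
          rw [ht]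
          field_simp
          rw [hS]
          ring
        rw [ha, hb]
        calc r * Real.exp (-(φ (q x) - φ0) / S) * (r * Real.exp (-(ψ (q y) - ψ0) / S))
            = (r * r) * (Real.exp (-(φ (q x) - φ0) / S) * Real.exp (-(ψ (q y) - ψ0) / S)) := by ring
          _ = _ := by rw [hr2, e3]
      have htpos : 0 < t := by
        by_contra hcon
        have : t * S ≤ 0 := mul_nonpos_of_nonpos_of_nonneg (not_lt.1 hcon) hSpos.le
        linarith
      have h4 : t ≤ Real.exp (t - 1) := by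
        have := Real.add_one_le_exp (t - 1)
        linarith
      calc inner ℝ x y = N x * ‖y‖ * c := e1
        _ ≤ (S⁻¹ * Real.exp (1 - t)) * (t * S) := by
            rw [← e2]
            exact mul_le_mul h1 hct hc0.le (mul_nonneg (hapos _).le (hbpos _).le)
        _ = t * Real.exp (1 - t) := by
            field_simp
        _ ≤ Real.exp (t - 1) * Real.exp (1 - t) :=
            mul_le_mul_of_nonneg_right h4 (Real.exp_pos _).le
        _ = 1 := by
            rw [← Real.exp_add, show t - 1 + (1 - t) = 0 by ring, Real.exp_zero]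
  have hsym : ∀ x ∈ {x | N x ≤ a (q x)}, -x ∈ {x | N x ≤ a (q x)} := by
    intro x hx
    rw [mem_ofPred_eq] at hx ⊢
    rw [h.neg, hq.neg]
    have : a (ν (q x)) = a (q x) := by
      rw [ha]
      change r * Real.exp (-(φ (ν (q x)) - φ0) / S) = _
      rw [hφ]
    rw [this]
    exact hx
  have key := santalo mA hsym hin
  -- the volumes
  have low : ∀ {M : E d → ℝ} (_ : IsN M) (χ : ι → ℝ) (χ0 : ℝ) (_ : ∑ i, wt M q i * χ i = χ0),
      r ^ d * vol M ≤ ∑ i, (r * Real.exp (-(χ i - χ0) / S)) ^ d * cw M q i := by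
    intro M hM χ χ0 hχ
    have e1 : ∀ i, (r * Real.exp (-(χ i - χ0) / S)) ^ d * cw M q i =
        r ^ d * vol M * (wt M q i * Real.exp (-(d * (χ i - χ0)) / S)) := by
      intro i
      rw [mul_pow, ← Real.exp_nat_mul]
      unfold wt
      have hvM := hM.vol_pos.ne'
      have e2 : (d : ℝ) * (-(χ i - χ0) / S) = -(d * (χ i - χ0)) / S := by ring
      rw [e2]
      field_simp
    rw [Finset.sum_congr rfl fun i _ => e1 i, ← Finset.mul_sum]
    have hpos : 0 ≤ r ^ d * vol M := mul_nonneg (pow_nonneg hrpos.le _) hM.vol_pos.le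
    refine le_mul_of_one_le_right hpos ?_
    calc (1 : ℝ) = ∑ i, wt M q i * (1 + -(d * (χ i - χ0)) / S) := by
          have e3 : ∀ i, wt M q i * (1 + -(d * (χ i - χ0)) / S) =
              wt M q i * (1 + d * χ0 / S) - (d / S) * (wt M q i * χ i) := fun i => by ring
          rw [Finset.sum_congr rfl fun i _ => e3 i, Finset.sum_sub_distrib, ← Finset.sum_mul,
            ← Finset.mul_sum, wt_sum hM hq, hχ]
          ring
      _ ≤ _ := by
          refine Finset.sum_le_sum fun i _ => mul_le_mul_of_nonneg_left ?_ (wt_nonneg i)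
          have := Real.add_one_le_exp (-(d * (χ i - χ0)) / S)
          linarith
  have lA := low h φ φ0 rfl
  have lB := low isN_nn ψ ψ0 rfl
  have eB : volume (Metric.closedBall (0 : E d) 1) = ENNReal.ofReal (vol (nn : E d → ℝ)) := by
    unfold vol
    rw [ENNReal.ofReal_toReal (isN_nn.isCompact_ball 1).measure_lt_top.ne]
    refine congrArg _ ?_
    ext x
    rw [mem_closedBall_zero_iff]
    exact Iff.rfl
  rw [vA, vB, eB, ← ENNReal.ofReal_mul (Finset.sum_nonneg fun i _ =>
    mul_nonneg (pow_nonneg (hapos i).le _) (cw_nonneg i)), ← ENNReal.ofReal_pow hvB.le,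
    ENNReal.ofReal_le_ofReal_iff (by positivity)] at key
  have h5 : (r ^ d * vol N) * (r ^ d * vol (nn : E d → ℝ)) ≤ vol (nn : E d → ℝ) ^ 2 :=
    (mul_le_mul lA lB (mul_nonneg (pow_nonneg hrpos.le _) hvB.le)
      (Finset.sum_nonneg fun i _ => mul_nonneg (pow_nonneg (hapos i).le _) (cw_nonneg i))).trans key
  have h6 : (r ^ d * vol N) * (r ^ d * vol (nn : E d → ℝ)) =
      (S⁻¹) ^ d * vol N * vol (nn : E d → ℝ) := by
    rw [← hr2, mul_pow]
    ring
  rw [h6, sq] at h5
  have h7 : (S⁻¹) ^ d * vol N ≤ vol (nn : E d → ℝ) := le_of_mul_le_mul_right h5 hvB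
  rw [inv_pow, inv_mul_le_iff₀ (pow_pos hSpos d)] at h7
  exact h7

end Pool.Agent.LibBS39
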