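import Mathlib

/-! Finite transport duality (the part which is needed). -/

set_option autoImplicit false

open Set

namespace Pool.Agent.LibBS39

/-- Marginals and cost of a plan. -/
noncomputable def planL {I J : Type} [Fintype I] [Fintype J] (c : I → J → ℝ) :
    (I × J → ℝ) →ₗ[ℝ] (I → ℝ) × (J → ℝ) × ℝ where
  toFun p := (fun i => ∑ j, p (i, j), fun j => ∑ i, p (i, j), ∑ i, ∑ j, p (i, j) * c i j)
  map_add' p q := by
    refine Prod.ext ?_ (Prod.ext ?_ ?_)
    · funext i
      simp [Finset.sum_add_distrib]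
    · funext j
      simp [Finset.sum_add_distrib]
    · simp [add_mul, Finset.sum_add_distrib]
  map_smul' r p := by
    refine Prod.ext ?_ (Prod.ext ?_ ?_)
    · funext i
      simp [Finset.mul_sum]
    · funext j
      simp [Finset.mul_sum]
    · simp [Finset.mul_sum, mul_assoc]

theorem continuous_planL {I J : Type} [Fintype I] [Fintype J] (c : I → J → ℝ) :
    Continuous (planL c) := LinearMap.continuous_of_finiteDimensional _

/-- If every pair of potentials has value `≥ S`, there is a plan with cost `≥ S`. -/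
theorem exists_plan {I J : Type} [Fintype I] [Fintype J] (μ : I → ℝ) (σ : J → ℝ)
    (hμ : ∀ i, 0 ≤ μ i) (hσ : ∀ j, 0 ≤ σ j) (hμ1 : ∑ i, μ i = 1) (hσ1 : ∑ j, σ j = 1)
    (c : I → J → ℝ) (S : ℝ)
    (hS : ∀ (φ : I → ℝ) (ψ : J → ℝ), (∀ i j, c i j ≤ φ i + ψ j) →
      S ≤ ∑ i, μ i * φ i + ∑ j, σ j * ψ j) :
    ∃ p : I → J → ℝ, (∀ i j, 0 ≤ p i j) ∧ (∀ i, ∑ j, p i j = μ i) ∧ (∀ j, ∑ i, p i j = σ j) ∧
      S ≤ ∑ i, ∑ j, p i j * c i j := by
  classical
  by_contra hno
  set D : Set ((I → ℝ) × (J → ℝ) × ℝ) := planL c '' stdSimplex ℝ (I × J) with hD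
  set T : Set ((I → ℝ) × (J → ℝ) × ℝ) := {x | x.1 = μ ∧ x.2.1 = σ ∧ S ≤ x.2.2} with hT
  have hDc : Convex ℝ D := (convex_stdSimplex ℝ (I × J)).linear_image _
  have hDk : IsCompact D := (isCompact_stdSimplex ℝ (I × J)).image (continuous_planL c)
  have hTc : Convex ℝ T := by
    intro x hx y hy a b ha hb hab
    refine ⟨?_, ?_, ?_⟩
    · rw [Prod.fst_add, Prod.smul_fst, Prod.smul_fst, hx.1, hy.1, ← add_smul, hab, one_smul]
    · rw [Prod.snd_add, Prod.fst_add, Prod.smul_snd, Prod.smul_snd, Prod.smul_fst, Prod.smul_fst,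
        hx.2.1, hy.2.1, ← add_smul, hab, one_smul]
    · have h1 := hx.2.2
      have h2 := hy.2.2
      have e : (a • x + b • y).2.2 = a * x.2.2 + b * y.2.2 := rfl
      rw [e]
      calc S = a * S + b * S := by rw [← add_mul, hab, one_mul]
        _ ≤ _ := add_le_add (mul_le_mul_of_nonneg_left h1 ha) (mul_le_mul_of_nonneg_left h2 hb)
  have hTk : IsClosed T := by
    refine (isClosed_eq continuous_fst continuous_const).inter
      ((isClosed_eq (continuous_fst.comp continuous_snd) continuous_const).inter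
        (isClosed_le continuous_const (continuous_snd.comp continuous_snd)))
  have hdis : Disjoint D T := by
    rw [Set.disjoint_left]
    rintro x ⟨p, hp, rfl⟩ ⟨h1, h2, h3⟩
    refine hno ⟨fun i j => p (i, j), fun i j => hp.1 (i, j), fun i => congrFun h1 i,
      fun j => congrFun h2 j, h3⟩
  obtain ⟨f, u, v, hfu, huv, hfv⟩ := geometric_hahn_banach_compact_closed hDc hDk hTc hTk hdis
  -- coordinates of `f`
  set φ' : I → ℝ := fun i => f (Pi.single i 1, 0, 0) with hφ'
  set ψ' : J → ℝ := fun j => f (0, Pi.single j 1, 0) with hψ'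
  set s : ℝ := f (0, 0, 1) with hs
  have hf : ∀ (a : I → ℝ) (b : J → ℝ) (t : ℝ),
      f (a, b, t) = ∑ i, a i * φ' i + ∑ j, b j * ψ' j + t * s := by
    intro a b t
    have e : ((a, b, t) : (I → ℝ) × (J → ℝ) × ℝ) =
        ∑ i, a i • ((Pi.single i 1, 0, 0) : (I → ℝ) × (J → ℝ) × ℝ) +
        ∑ j, b j • ((0, Pi.single j 1, 0) : (I → ℝ) × (J → ℝ) × ℝ) +
        t • ((0, 0, 1) : (I → ℝ) × (J → ℝ) × ℝ) := by
      refine Prod.ext ?_ (Prod.ext ?_ ?_)
      · funext i
        simp [Prod.fst_sum, Finset.sum_apply, Pi.single_apply]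
      · funext j
        simp [Prod.snd_sum, Prod.fst_sum, Finset.sum_apply, Pi.single_apply]
      · simp [Prod.snd_sum]
    rw [e, map_add, map_add, map_sum, map_sum]
    simp only [map_smul, smul_eq_mul, hφ', hψ', hs]
  have hT1 : ∀ t : ℝ, S ≤ t → u < ∑ i, μ i * φ' i + ∑ j, σ j * ψ' j + t * s := by
    intro t ht
    have h1 := hfv (μ, σ, t) ⟨rfl, rfl, ht⟩
    rw [hf] at h1
    linarith
  have hD1 : ∀ i j, φ' i + ψ' j + c i j * s < u := by
    intro i j
    have hmem : (Pi.single (i, j) 1 : I × J → ℝ) ∈ stdSimplex ℝ (I × J) := single_mem_stdSimplex ℝ _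
    have h1 := hfu _ ⟨_, hmem, rfl⟩
    have e : planL c (Pi.single (i, j) 1 : I × J → ℝ) =
        (Pi.single i 1, Pi.single j 1, c i j) := by
      refine Prod.ext ?_ (Prod.ext ?_ ?_)
      · funext a
        change ∑ b, (Pi.single (i, j) 1 : I × J → ℝ) (a, b) = (Pi.single i 1 : I → ℝ) a
        simp only [Pi.single_apply, Prod.mk.injEq]
        by_cases hai : a = i
        · simp [hai]
        · simp [hai]
      · funext b
        change ∑ a, (Pi.single (i, j) 1 : I × J → ℝ) (a, b) = (Pi.single j 1 : J → ℝ) b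
        simp only [Pi.single_apply, Prod.mk.injEq]
        by_cases hbj : b = j
        · simp [hbj]
        · simp [hbj]
      · change ∑ a, ∑ b, (Pi.single (i, j) 1 : I × J → ℝ) (a, b) * c a b = c i j
        rw [Finset.sum_eq_single i, Finset.sum_eq_single j]
        · rw [Pi.single_eq_same, one_mul]
        · intro b _ hb
          rw [Pi.single_eq_of_ne (fun h => hb (Prod.ext_iff.1 h).2), zero_mul]
        · intro h
          exact absurd (Finset.mem_univ _) h
        · intro a _ ha
          refine Finset.sum_eq_zero fun b _ => ?_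
          rw [Pi.single_eq_of_ne (fun h => ha (Prod.ext_iff.1 h).1), zero_mul]
        · intro h
          exact absurd (Finset.mem_univ _) h
    rw [e, hf] at h1
    have e1 : ∑ a, (Pi.single i 1 : I → ℝ) a * φ' a = φ' i := by
      simp [Pi.single_apply]
    have e2 : ∑ b, (Pi.single j 1 : J → ℝ) b * ψ' b = ψ' j := by
      simp [Pi.single_apply]
    rw [e1, e2] at h1
    exact h1
  have hs0 : 0 ≤ s := by
    by_contra hneg
    rw [not_le] at hneg
    set A := ∑ i, μ i * φ' i + ∑ j, σ j * ψ' j with hA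
    have h1 := hT1 (max S ((u - A) / s)) (le_max_left _ _)
    have h2 : (max S ((u - A) / s)) * s ≤ ((u - A) / s) * s :=
      mul_le_mul_of_nonpos_right (le_max_right _ _) hneg.le
    rw [div_mul_cancel₀ _ hneg.ne] at h2
    linarith
  have hIJ : Nonempty I ∧ Nonempty J := by
    constructor
    · by_contra h
      rw [not_nonempty_iff] at h
      rw [Finset.univ_eq_empty, Finset.sum_empty] at hμ1
      exact zero_ne_one hμ1
    · by_contra h
      rw [not_nonempty_iff] at h
      rw [Finset.univ_eq_empty, Finset.sum_empty] at hσ1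
      exact zero_ne_one hσ1
  rcases hs0.eq_or_lt with h0 | hpos
  · -- `s = 0`
    have h1 := hT1 S le_rfl
    rw [← h0, mul_zero, add_zero] at h1
    have h2 : ∑ i, μ i * φ' i + ∑ j, σ j * ψ' j = ∑ i, ∑ j, μ i * σ j * (φ' i + ψ' j) := by
      have e1 : ∑ i, μ i * φ' i = ∑ i, ∑ j, μ i * σ j * φ' i := by
        refine Finset.sum_congr rfl fun i _ => ?_
        rw [← Finset.sum_mul, ← Finset.mul_sum, hσ1, mul_one]
      have e2 : ∑ j, σ j * ψ' j = ∑ i, ∑ j, μ i * σ j * ψ' j := by
        rw [Finset.sum_comm]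
        refine Finset.sum_congr rfl fun j _ => ?_
        rw [← Finset.sum_mul, ← Finset.sum_mul, hμ1, one_mul]
      rw [e1, e2, ← Finset.sum_add_distrib]
      refine Finset.sum_congr rfl fun i _ => ?_
      rw [← Finset.sum_add_distrib]
      exact Finset.sum_congr rfl fun j _ => by ring
    have h3 : ∑ i, ∑ j, μ i * σ j * (φ' i + ψ' j) ≤ ∑ i, ∑ j, μ i * σ j * u := by
      refine Finset.sum_le_sum fun i _ => Finset.sum_le_sum fun j _ => ?_
      have h4 := hD1 i j
      rw [← h0, mul_zero, add_zero] at h4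
      exact mul_le_mul_of_nonneg_left h4.le (mul_nonneg (hμ i) (hσ j))
    have h5 : ∑ i, ∑ j, μ i * σ j * u = u := by
      have e1 : ∀ i, ∑ j, μ i * σ j * u = μ i * u := by
        intro i
        rw [← Finset.sum_mul, ← Finset.mul_sum, hσ1, mul_one]
      rw [Finset.sum_congr rfl fun i _ => e1 i, ← Finset.sum_mul, hμ1, one_mul]
    linarith
  · have h1 := hT1 S le_rfl
    have h2 := hS (fun i => (u - φ' i) / s) (fun j => -(ψ' j) / s) (fun i j => by
      rw [← add_div, le_div_iff₀ hpos]
      have := hD1 i j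
      linarith)
    have e1 : ∑ i, μ i * ((u - φ' i) / s) = (u - ∑ i, μ i * φ' i) / s := by
      rw [sub_div, Finset.sum_div]
      have : ∀ i, μ i * ((u - φ' i) / s) = μ i * (u / s) - μ i * φ' i / s := fun i => by ring
      rw [Finset.sum_congr rfl fun i _ => this i, Finset.sum_sub_distrib, ← Finset.sum_mul, hμ1,
        one_mul]
    have e2 : ∑ j, σ j * (-(ψ' j) / s) = -(∑ j, σ j * ψ' j) / s := by
      rw [← Finset.sum_neg_distrib, Finset.sum_div]
      exact Finset.sum_congr rfl fun j _ => by ring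
    rw [e1, e2, ← add_div, le_div_iff₀ hpos] at h2
    linarith

end Pool.Agent.LibBS39
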