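import Pool.Agent.LibSP74.PL3

/-! Blaschke-Santaló for symmetric measurable sets, part 1: Steiner symmetrisation in the direction
of a coordinate axis (no convexity). -/

set_option autoImplicit false

open MeasureTheory Set
open scoped ENNReal

namespace Pool.Agent.LibBS39

open Pool.Agent.LibSP74

/-- Brunn-Minkowski for `A` and `-A`, in coordinates. -/
theorem bm_symm0 {d : ℕ} {A S : Set (Fin d → ℝ)} (hA : MeasurableSet A) (hS : MeasurableSet S)
    (h : ∀ x ∈ A, ∀ y ∈ A, (1 / 2 : ℝ) • (x - y) ∈ S) : volume A ≤ volume S := by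
  have hN : MeasurableSet (-A) := hA.neg
  have key := pl d (f := A.indicator 1) (g := (-A).indicator 1)
    (h := S.indicator 1) (measurable_one.indicator hA) (measurable_one.indicator hN)
    (measurable_one.indicator hS) (fun x y => by
      by_cases hx : x ∈ A
      · by_cases hy : y ∈ -A
        · have hxy : (1 / 2 : ℝ) • (x + y) ∈ S := by
            have h1 := h x hx (-y) hy
            rwa [sub_neg_eq_add] at h1
          rw [indicator_of_mem hx, indicator_of_mem hy, indicator_of_mem hxy]
          simp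
        · rw [indicator_of_notMem hy, mul_zero]
          exact zero_le
      · rw [indicator_of_notMem hx, zero_mul]
        exact zero_le)
  rw [lintegral_indicator_one hA, lintegral_indicator_one hN, lintegral_indicator_one hS,
    Measure.measure_neg, ← sq] at key
  by_contra hcon
  rw [not_le] at hcon
  exact absurd key (not_le.2 (ENNReal.pow_lt_pow_left two_ne_zero hcon))

/-- The change of sign of the coordinate `j`. -/
def flip {d : ℕ} (j : Fin d) (x : Fin d → ℝ) : Fin d → ℝ := fun i => if i = j then -x i else x i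

/-- The polar set. -/
def polar {d : ℕ} (A : Set (Fin d → ℝ)) : Set (Fin d → ℝ) := {y | ∀ x ∈ A, ∑ i, x i * y i ≤ 1}

theorem isClosed_polar {d : ℕ} (A : Set (Fin d → ℝ)) : IsClosed (polar A) := by
  have e : polar A = ⋂ x ∈ A, {y : Fin d → ℝ | ∑ i, x i * y i ≤ 1} := by
    ext y
    simp [polar]
  rw [e]
  refine isClosed_biInter fun x _ => ?_
  exact isClosed_le (by fun_prop) continuous_const

theorem measurableSet_polar {d : ℕ} (A : Set (Fin d → ℝ)) : MeasurableSet (polar A) :=
  (isClosed_polar A).measurableSet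

theorem polar_neg {d : ℕ} {A : Set (Fin d → ℝ)} (hA : ∀ x ∈ A, -x ∈ A) :
    ∀ y ∈ polar A, -y ∈ polar A := by
  intro y hy x hx
  have h := hy (-x) (hA x hx)
  simpa using h

theorem polar_flip {d : ℕ} {A : Set (Fin d → ℝ)} {j : Fin d} (hA : ∀ x ∈ A, flip j x ∈ A) :
    ∀ y ∈ polar A, flip j y ∈ polar A := by
  intro y hy x hx
  have h := hy (flip j x) (hA x hx)
  have e : ∑ i, x i * flip j y i = ∑ i, flip j x i * y i := by
    refine Finset.sum_congr rfl fun i _ => ?_
    unfold flip
    split_ifs <;> ring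
  rw [e]
  exact h

/-- The fibres. -/
def fib {n : ℕ} (k : Fin (n + 1)) (A : Set (Fin (n + 1) → ℝ)) (z : Fin n → ℝ) : Set ℝ :=
  {s | k.insertNth (α := fun _ => ℝ) s z ∈ A}

/-- The Steiner symmetral. -/
def St {n : ℕ} (k : Fin (n + 1)) (A : Set (Fin (n + 1) → ℝ)) : Set (Fin (n + 1) → ℝ) :=
  {x | ENNReal.ofReal (2 * |x k|) < volume (fib k A (fun i => x (k.succAbove i)))}

theorem meas_ins {n : ℕ} (k : Fin (n + 1)) :
    Measurable fun p : ℝ × (Fin n → ℝ) => (k.insertNth (α := fun _ => ℝ) p.1 p.2 : Fin (n + 1) → ℝ) :=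
  (MeasurableEquiv.piFinSuccAbove (fun _ : Fin (n + 1) => ℝ) k).symm.measurable

theorem measurable_fib {n : ℕ} (k : Fin (n + 1)) {A : Set (Fin (n + 1) → ℝ)}
    (hA : MeasurableSet A) : Measurable fun z : Fin n → ℝ => volume (fib k A z) := by
  have h : MeasurableSet {p : (Fin n → ℝ) × ℝ | k.insertNth (α := fun _ => ℝ) p.2 p.1 ∈ A} :=
    ((meas_ins k).comp measurable_swap) hA
  exact measurable_measure_prodMk_left h

theorem measurableSet_St {n : ℕ} (k : Fin (n + 1)) {A : Set (Fin (n + 1) → ℝ)}
    (hA : MeasurableSet A) : MeasurableSet (St k A) := by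
  refine measurableSet_lt ?_ ?_
  · exact ENNReal.measurable_ofReal.comp (by fun_prop)
  · refine (measurable_fib k hA).comp ?_
    exact measurable_pi_lambda _ fun i => measurable_pi_apply _

/-- Tonelli, fibres over the hyperplane. -/
theorem vol_fib {n : ℕ} (k : Fin (n + 1)) {A : Set (Fin (n + 1) → ℝ)} (hA : MeasurableSet A) :
    volume A = ∫⁻ z : Fin n → ℝ, volume (fib k A z) := by
  have hm := (volume_preserving_piFinSuccAbove (fun _ : Fin (n + 1) => ℝ) k).symm
  rw [← hm.measure_preimage hA.nullMeasurableSet]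
  have h1 : MeasurableSet ((MeasurableEquiv.piFinSuccAbove (fun _ : Fin (n + 1) => ℝ) k).symm ⁻¹' A) :=
    (MeasurableEquiv.measurable _) hA
  rw [Measure.volume_eq_prod, Measure.prod_apply_symm h1]
  rfl

/-- Tonelli, slices. -/
theorem vol_slice {n : ℕ} (k : Fin (n + 1)) {A : Set (Fin (n + 1) → ℝ)} (hA : MeasurableSet A) :
    volume A = ∫⁻ t : ℝ, volume {z : Fin n → ℝ | k.insertNth (α := fun _ => ℝ) t z ∈ A} := by
  have hm := (volume_preserving_piFinSuccAbove (fun _ : Fin (n + 1) => ℝ) k).symm
  rw [← hm.measure_preimage hA.nullMeasurableSet]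
  have h1 : MeasurableSet ((MeasurableEquiv.piFinSuccAbove (fun _ : Fin (n + 1) => ℝ) k).symm ⁻¹' A) :=
    (MeasurableEquiv.measurable _) hA
  rw [Measure.volume_eq_prod, Measure.prod_apply h1]
  rfl

theorem vol_abs_lt (v : ℝ≥0∞) : volume {s : ℝ | ENNReal.ofReal (2 * |s|) < v} = v := by
  rcases eq_or_ne v ∞ with hv | hv
  · subst hv
    have e : {s : ℝ | ENNReal.ofReal (2 * |s|) < ∞} = univ := by
      ext s
      exact ⟨fun _ => trivial, fun _ => ENNReal.ofReal_lt_top⟩
    rw [e, Real.volume_univ]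
  · have e : {s : ℝ | ENNReal.ofReal (2 * |s|) < v} = Ioo (-(v.toReal / 2)) (v.toReal / 2) := by
      ext s
      rw [mem_ofPred_eq, ENNReal.ofReal_lt_iff_lt_toReal (by positivity) hv, mem_Ioo, ← abs_lt]
      constructor <;> intro h <;> linarith
    rw [e, Real.volume_Ioo]
    have e2 : v.toReal / 2 - -(v.toReal / 2) = v.toReal := by ring
    rw [e2, ENNReal.ofReal_toReal hv]

theorem fib_St {n : ℕ} (k : Fin (n + 1)) (A : Set (Fin (n + 1) → ℝ)) (z : Fin n → ℝ) :
    fib k (St k A) z = {s : ℝ | ENNReal.ofReal (2 * |s|) < volume (fib k A z)} := by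
  ext s
  unfold fib St
  simp only [mem_ofPred_eq, Fin.insertNth_apply_same, Fin.insertNth_apply_succAbove]
  exact Iff.rfl

theorem vol_St {n : ℕ} (k : Fin (n + 1)) {A : Set (Fin (n + 1) → ℝ)} (hA : MeasurableSet A) :
    volume (St k A) = volume A := by
  rw [vol_fib k (measurableSet_St k hA), vol_fib k hA]
  refine lintegral_congr fun z => ?_
  rw [fib_St, vol_abs_lt]

theorem fib_neg {n : ℕ} (k : Fin (n + 1)) {A : Set (Fin (n + 1) → ℝ)} (hA : ∀ x ∈ A, -x ∈ A)
    (z : Fin n → ℝ) : volume (fib k A (-z)) = volume (fib k A z) := by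
  have hins : ∀ (s : ℝ) (w : Fin n → ℝ), k.insertNth (α := fun _ => ℝ) (-s) (-w) =
      -(k.insertNth (α := fun _ => ℝ) s w : Fin (n + 1) → ℝ) := by
    intro s w
    funext i
    refine Fin.succAboveCases k ?_ (fun j => ?_) i
    · rw [Fin.insertNth_apply_same, Pi.neg_apply, Fin.insertNth_apply_same]
    · rw [Fin.insertNth_apply_succAbove, Pi.neg_apply, Pi.neg_apply,
        Fin.insertNth_apply_succAbove]
  have e : fib k A (-z) = -(fib k A z) := by
    ext s
    unfold fib
    rw [mem_ofPred_eq, mem_neg, mem_ofPred_eq]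
    constructor
    · intro h
      have h1 := hA _ h
      rwa [← hins, neg_neg] at h1
    · intro h
      have h1 := hA _ h
      rwa [← hins, neg_neg] at h1
  rw [e, Measure.measure_neg]

theorem St_neg {n : ℕ} (k : Fin (n + 1)) {A : Set (Fin (n + 1) → ℝ)} (hA : ∀ x ∈ A, -x ∈ A) :
    ∀ x ∈ St k A, -x ∈ St k A := by
  intro x hx
  unfold St at hx ⊢
  rw [mem_ofPred_eq] at hx ⊢
  have e : (fun i => (-x) (k.succAbove i)) = -(fun i => x (k.succAbove i)) := rfl
  rw [e, fib_neg k hA, Pi.neg_apply, abs_neg]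
  exact hx

theorem St_flip_same {n : ℕ} (k : Fin (n + 1)) (A : Set (Fin (n + 1) → ℝ)) :
    ∀ x ∈ St k A, flip k x ∈ St k A := by
  intro x hx
  unfold St at hx ⊢
  rw [mem_ofPred_eq] at hx ⊢
  have e : (fun i => flip k x (k.succAbove i)) = fun i => x (k.succAbove i) := by
    funext i
    unfold flip
    rw [if_neg (Fin.succAbove_ne k i)]
  have e2 : |flip k x k| = |x k| := by
    unfold flip
    rw [if_pos rfl, abs_neg]
  rw [e, e2]
  exact hx

theorem St_flip {n : ℕ} (k : Fin (n + 1)) {A : Set (Fin (n + 1) → ℝ)} (j : Fin n)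
    (hA : ∀ x ∈ A, flip (k.succAbove j) x ∈ A) :
    ∀ x ∈ St k A, flip (k.succAbove j) x ∈ St k A := by
  intro x hx
  unfold St at hx ⊢
  rw [mem_ofPred_eq] at hx ⊢
  have e : (fun i => flip (k.succAbove j) x (k.succAbove i)) =
      flip j (fun i => x (k.succAbove i)) := by
    funext i
    unfold flip
    by_cases hij : i = j
    · rw [if_pos hij, if_pos (by rw [hij])]
    · rw [if_neg hij, if_neg (fun h => hij (Fin.succAbove_right_injective h))]
  have e2 : |flip (k.succAbove j) x k| = |x k| := by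
    unfold flip
    rw [if_neg (Ne.symm (Fin.succAbove_ne k j))]
  have hins : ∀ (s : ℝ) (w : Fin n → ℝ), k.insertNth (α := fun _ => ℝ) s (flip j w) =
      flip (k.succAbove j) (k.insertNth (α := fun _ => ℝ) s w : Fin (n + 1) → ℝ) := by
    intro s w
    funext i
    refine Fin.succAboveCases k ?_ (fun l => ?_) i
    · unfold flip
      rw [Fin.insertNth_apply_same, if_neg (Ne.symm (Fin.succAbove_ne k j)),
        Fin.insertNth_apply_same]
    · unfold flip
      rw [Fin.insertNth_apply_succAbove, Fin.insertNth_apply_succAbove]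
      by_cases hij : l = j
      · rw [if_pos hij, if_pos (by rw [hij])]
      · rw [if_neg hij, if_neg (fun h => hij (Fin.succAbove_right_injective h))]
  have hff : ∀ w : Fin (n + 1) → ℝ, flip (k.succAbove j) (flip (k.succAbove j) w) = w := by
    intro w
    funext i
    unfold flip
    split_ifs
    · rw [neg_neg]
    · rfl
  have e3 : ∀ z : Fin n → ℝ, fib k A (flip j z) = fib k A z := by
    intro z
    ext s
    unfold fib
    rw [mem_ofPred_eq, mem_ofPred_eq, hins]
    constructor
    · intro h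
      have h1 := hA _ h
      rwa [hff] at h1
    · intro h
      exact hA _ h
  rw [e, e2, e3]
  exact hx

/-- The key step: the polar set of the symmetral is not smaller. -/
theorem vol_polar_St {n : ℕ} (k : Fin (n + 1)) {A : Set (Fin (n + 1) → ℝ)}
    (hA : ∀ x ∈ A, -x ∈ A) : volume (polar A) ≤ volume (polar (St k A)) := by
  rw [vol_slice k (measurableSet_polar A), vol_slice k (measurableSet_polar (St k A))]
  refine lintegral_mono fun t => ?_
  have hms : ∀ B : Set (Fin (n + 1) → ℝ),
      MeasurableSet {z : Fin n → ℝ | k.insertNth (α := fun _ => ℝ) t z ∈ polar B} := fun B =>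
    ((meas_ins k).comp measurable_prodMk_left) (measurableSet_polar B)
  refine bm_symm0 (hms A) (hms _) fun y hy z hz => ?_
  rw [mem_ofPred_eq] at hy hz ⊢
  intro x hx
  set x' : Fin n → ℝ := fun i => x (k.succAbove i) with hx'
  have hsum : ∀ (u : Fin (n + 1) → ℝ) (s : ℝ) (w : Fin n → ℝ),
      ∑ i, u i * (k.insertNth (α := fun _ => ℝ) s w : Fin (n + 1) → ℝ) i =
        u k * s + ∑ i, u (k.succAbove i) * w i := by
    intro u s w
    rw [Fin.sum_univ_succAbove _ k, Fin.insertNth_apply_same]
    refine congrArg _ (Finset.sum_congr rfl fun i _ => ?_)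
    rw [Fin.insertNth_apply_succAbove]
  -- two points of the fibre at distance more than `2 |x k|`
  have hx0 : ENNReal.ofReal (2 * |x k|) < volume (fib k A x') := hx
  have hex : ∃ s1 ∈ fib k A x', ∃ s2 ∈ fib k A x', 2 * |x k| < s1 - s2 := by
    by_contra hcon
    push Not at hcon
    have hle : volume (fib k A x') ≤ ENNReal.ofReal (2 * |x k|) := by
      rcases (fib k A x').eq_empty_or_nonempty with h0 | ⟨s0, hs0⟩
      · rw [h0, measure_empty]
        exact zero_le
      · have hbb : BddBelow (fib k A x') := ⟨s0 - 2 * |x k|, fun s hs => by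
          have := hcon s0 hs0 s hs
          linarith⟩
        have hba : BddAbove (fib k A x') := ⟨s0 + 2 * |x k|, fun s hs => by
          have := hcon s hs s0 hs0
          linarith⟩
        have hsub : fib k A x' ⊆ Icc (sInf (fib k A x')) (sSup (fib k A x')) := fun s hs =>
          ⟨csInf_le hbb hs, le_csSup hba hs⟩
        refine (measure_mono hsub).trans ?_
        rw [Real.volume_Icc]
        refine ENNReal.ofReal_le_ofReal ?_
        have h1 : sSup (fib k A x') ≤ sInf (fib k A x') + 2 * |x k| := by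
          refine csSup_le ⟨s0, hs0⟩ fun s hs => ?_
          have h2 : s - 2 * |x k| ≤ sInf (fib k A x') := by
            refine le_csInf ⟨s0, hs0⟩ fun s' hs' => ?_
            have := hcon s hs s' hs'
            linarith
          linarith
        linarith
    exact absurd hx0 (not_lt.2 hle)
  obtain ⟨s1, hs1, s2, hs2, hss⟩ := hex
  have ev : ∀ s ∈ fib k A x', ∀ w : Fin n → ℝ,
      k.insertNth (α := fun _ => ℝ) t w ∈ polar A → s * t + ∑ i, x' i * w i ≤ 1 := by
    intro s hs w hw
    have h1 := hw _ hs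
    rw [hsum, Fin.insertNth_apply_same] at h1
    have h2 : ∀ i, (k.insertNth (α := fun _ => ℝ) s x' : Fin (n + 1) → ℝ) (k.succAbove i) = x' i :=
      fun i => Fin.insertNth_apply_succAbove _ _ _ _
    rw [Finset.sum_congr rfl fun i _ => by rw [h2 i]] at h1
    exact h1
  -- the point `-(x', s)` belongs to `A`
  have hneg : ∀ s ∈ fib k A x', ∀ w : Fin n → ℝ,
      k.insertNth (α := fun _ => ℝ) t w ∈ polar A → -(s * t) - ∑ i, x' i * w i ≤ 1 := by
    intro s hs w hw
    have h1 := hw _ (hA _ hs)
    rw [hsum, Pi.neg_apply, Fin.insertNth_apply_same] at h1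
    have h2 : ∀ i, (-(k.insertNth (α := fun _ => ℝ) s x' : Fin (n + 1) → ℝ)) (k.succAbove i) =
        -(x' i) := fun i => by
      rw [Pi.neg_apply, Fin.insertNth_apply_succAbove]
    rw [Finset.sum_congr rfl fun i _ => by rw [h2 i]] at h1
    simp only [neg_mul, Finset.sum_neg_distrib] at h1
    linarith
  rw [hsum]
  have e4 : ∑ i, x (k.succAbove i) * ((1 / 2 : ℝ) • (y - z)) i =
      (1 / 2) * (∑ i, x' i * y i) - (1 / 2) * ∑ i, x' i * z i := by
    rw [Finset.mul_sum, Finset.mul_sum, ← Finset.sum_sub_distrib]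
    refine Finset.sum_congr rfl fun i _ => ?_
    rw [Pi.smul_apply, Pi.sub_apply, smul_eq_mul, hx']
    ring
  rw [e4]
  have hxt : x k * t ≤ |x k| * |t| := by
    rw [← abs_mul]
    exact le_abs_self _
  rcases le_total 0 t with ht | ht
  · have a1 := ev s1 hs1 y hy
    have a2 := hneg s2 hs2 z hz
    rw [abs_of_nonneg ht] at hxt
    nlinarith [abs_nonneg (x k)]
  · have a1 := ev s2 hs2 y hy
    have a2 := hneg s1 hs1 z hz
    rw [abs_of_nonpos ht] at hxt
    nlinarith [abs_nonneg (x k)]

end Pool.Agent.LibBS39
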