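import Pool.Agent.LibBS39.Dual
import Pool.Agent.LibBS39.FinDual

/-! Theorem W, part 3: the coupling. -/

set_option autoImplicit false

open MeasureTheory Set
open scoped ENNReal Pointwise

namespace Pool.Agent.LibBS39

open Pool.Agent.LibSP74

/-- Odd rounding. -/
noncomputable def rd (m : ℕ) (t : ℝ) : ℤ := if 0 ≤ t then ⌊(m : ℝ) * t⌋ else -⌊-((m : ℝ) * t)⌋

theorem rd_neg (m : ℕ) (t : ℝ) : rd m (-t) = -rd m t := by
  unfold rd
  rcases lt_trichotomy t 0 with h | h | h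
  · rw [if_pos (by linarith), if_neg (not_le.2 h), neg_neg, mul_neg]
  · rw [h, neg_zero, if_pos le_rfl, mul_zero, Int.floor_zero, neg_zero]
  · rw [if_neg (by linarith), if_pos h.le, mul_neg, neg_neg]

theorem measurable_rd (m : ℕ) : Measurable (rd m) := by
  unfold rd
  refine Measurable.ite (measurableSet_le measurable_const measurable_id) ?_ ?_
  · exact Int.measurable_floor.comp (by fun_prop)
  · exact (Int.measurable_floor.comp (by fun_prop)).neg

theorem rd_abs_le {m : ℕ} {t : ℝ} (h : |t| ≤ 1) : |rd m t| ≤ m := by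
  have key : ∀ s : ℝ, 0 ≤ s → s ≤ 1 → |⌊(m : ℝ) * s⌋| ≤ (m : ℤ) := by
    intro s h0 h1
    have hm : (0 : ℝ) ≤ (m : ℝ) * s := mul_nonneg (Nat.cast_nonneg m) h0
    rw [abs_of_nonneg (Int.floor_nonneg.2 hm)]
    have h2 : (⌊(m : ℝ) * s⌋ : ℝ) ≤ m := (Int.floor_le _).trans (mul_le_of_le_one_right (Nat.cast_nonneg m) h1)
    exact_mod_cast h2
  unfold rd
  split_ifs with h0
  · exact key t h0 ((le_abs_self t).trans h)
  · rw [abs_neg, ← mul_neg]
    exact key (-t) (by linarith) ((neg_le_abs t).trans h)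

/-- Numbers with the same rounding are close. -/
theorem rd_close {m : ℕ} {s t : ℝ} (h : rd m s = rd m t) : (m : ℝ) * |s - t| ≤ 2 := by
  have key : ∀ u : ℝ, |(m : ℝ) * u - rd m u| ≤ 1 := by
    intro u
    unfold rd
    split_ifs with h0
    · rw [abs_le]
      have h1 := Int.floor_le ((m : ℝ) * u)
      have h2 := Int.lt_floor_add_one ((m : ℝ) * u)
      constructor <;> linarith
    · rw [abs_le]
      have h1 := Int.floor_le (-((m : ℝ) * u))
      have h2 := Int.lt_floor_add_one (-((m : ℝ) * u))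
      push_cast
      constructor <;> linarith
  have h1 := key s
  have h2 := key t
  rw [h] at h1
  have h3 : |(m : ℝ) * s - m * t| ≤ 2 := by
    have := abs_sub_le ((m : ℝ) * s) (rd m t : ℝ) ((m : ℝ) * t)
    rw [abs_sub_comm (rd m t : ℝ)] at this
    linarith
  rwa [← mul_sub, abs_mul, Nat.abs_cast] at h3

/-- The rounding of the direction. -/
noncomputable def qq (d m : ℕ) (x : E d) : Fin d → ℤ := fun k => rd m ((‖x‖⁻¹ • x) k)

theorem finite_range_qq (d m : ℕ) : (Set.range (qq d m)).Finite := by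
  refine Set.Finite.subset (Set.Finite.pi' (t := fun _ : Fin d => {z : ℤ | |z| ≤ m}) fun k => ?_) ?_
  · refine (Set.finite_Icc (-(m : ℤ)) m).subset fun z hz => ?_
    exact abs_le.1 hz
  · rintro _ ⟨x, rfl⟩ k
    refine rd_abs_le ?_
    have h1 : |(‖x‖⁻¹ • x) k| ≤ ‖‖x‖⁻¹ • x‖ := by
      rw [← Real.norm_eq_abs]
      exact PiLp.norm_apply_le _ k
    refine h1.trans ?_
    rw [norm_smul, norm_inv, norm_norm]
    rcases eq_or_ne (‖x‖) 0 with h0 | h0
    · rw [h0, mul_zero]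
      exact zero_le_one
    · rw [inv_mul_cancel₀ h0]

/-- The cells. -/
abbrev Ix (d m : ℕ) := ↥(Set.range (qq d m))

noncomputable instance (d m : ℕ) : Fintype (Ix d m) := (finite_range_qq d m).fintype

noncomputable def qc (d m : ℕ) (x : E d) : Ix d m := ⟨qq d m x, x, rfl⟩

theorem qq_neg (d m : ℕ) (x : E d) : qq d m (-x) = -qq d m x := by
  funext k
  unfold qq
  rw [norm_neg, smul_neg, Pi.neg_apply]
  exact rd_neg m _

noncomputable def nu (d m : ℕ) (i : Ix d m) : Ix d m :=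
  ⟨-i.1, by
    obtain ⟨x, hx⟩ := i.2
    exact ⟨-x, by rw [qq_neg, hx]⟩⟩

theorem isCell_qc (d m : ℕ) : IsCell (qc d m) (nu d m) where
  meas i := by
    have hm : Measurable (qq d m) := by
      refine measurable_pi_lambda _ fun k => (measurable_rd m).comp ?_
      have h1 : Measurable fun x : E d => (‖x‖⁻¹ • x) :=
        (measurable_norm.inv).smul measurable_id
      exact (EuclideanSpace.proj (𝕜 := ℝ) k).continuous.measurable.comp h1
    have e : qc d m ⁻¹' {i} = qq d m ⁻¹' {i.1} := by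
      ext x
      rw [mem_preimage, mem_preimage, mem_singleton_iff, mem_singleton_iff]
      exact Subtype.ext_iff
    rw [e]
    exact hm (measurableSet_singleton _)
  smul t x ht := by
    refine Subtype.ext ?_
    change qq d m (t • x) = qq d m x
    unfold qq
    rw [norm_smul, Real.norm_eq_abs, abs_of_pos ht, mul_inv, smul_smul]
    have : t⁻¹ * ‖x‖⁻¹ * t = ‖x‖⁻¹ := by
      field_simp
    rw [this]
  neg x := Subtype.ext (qq_neg d m x)
  inv i := by
    refine Subtype.ext ?_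
    change - -i.1 = i.1
    rw [neg_neg]

/-! ### The cost -/

/-- The cost `⟪x / N x, y / |y|⟫`. -/
noncomputable def FF {d : ℕ} (N : E d → ℝ) (x y : E d) : ℝ :=
  inner ℝ ((N x)⁻¹ • x) (‖y‖⁻¹ • y)

theorem FF_neg {d : ℕ} {N : E d → ℝ} (h : IsN N) (x y : E d) : FF N (-x) (-y) = FF N x y := by
  unfold FF
  rw [h.neg, norm_neg, smul_neg, smul_neg, inner_neg_neg]

theorem exists_bound {d : ℕ} {N : E d → ℝ} (h : IsN N) :
    ∃ R : ℝ, 0 < R ∧ ∀ x : E d, ‖(N x)⁻¹ • x‖ ≤ R := by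
  obtain ⟨R, hR⟩ := (h.isCompact_ball 1).isBounded.exists_norm_le
  refine ⟨max R 1, lt_max_of_lt_right one_pos, fun x => (hR _ ?_).trans (le_max_left _ _)⟩
  rw [mem_ofPred_eq, h.smul_nonneg (inv_nonneg.2 (h.nonneg x))]
  exact inv_mul_le_one_of_le₀ le_rfl (h.nonneg x)

theorem norm_dir_le {d : ℕ} (y : E d) : ‖‖y‖⁻¹ • y‖ ≤ 1 := by
  rw [norm_smul, norm_inv, norm_norm]
  exact inv_mul_le_one_of_le₀ le_rfl (norm_nonneg y)

theorem abs_FF_le {d : ℕ} {N : E d → ℝ} {R : ℝ} (hR : ∀ x : E d, ‖(N x)⁻¹ • x‖ ≤ R)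
    (x y : E d) : |FF N x y| ≤ R := by
  unfold FF
  refine (abs_real_inner_le_norm _ _).trans ?_
  exact (mul_le_mul (hR x) (norm_dir_le y) (norm_nonneg _) ((norm_nonneg _).trans (hR x))).trans
    (mul_one R).le

theorem qq_zero (d m : ℕ) : qq d m 0 = 0 := by
  funext k
  unfold qq rd
  rw [smul_zero, PiLp.zero_apply, if_pos le_rfl, mul_zero, Int.floor_zero]
  rfl

theorem dir_close {d m : ℕ} {x x' : E d} (h : qq d m x = qq d m x') :
    (m : ℝ) ^ 2 * ‖‖x‖⁻¹ • x - ‖x'‖⁻¹ • x'‖ ^ 2 ≤ 4 * d := by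
  rw [EuclideanSpace.real_norm_sq_eq, Finset.mul_sum]
  have h1 : ∀ k ∈ (Finset.univ : Finset (Fin d)),
      (m : ℝ) ^ 2 * (‖x‖⁻¹ • x - ‖x'‖⁻¹ • x') k ^ 2 ≤ 4 := by
    intro k _
    have h2 := rd_close (congrFun h k)
    rw [PiLp.sub_apply]
    have h3 : ((m : ℝ) * |(‖x‖⁻¹ • x) k - (‖x'‖⁻¹ • x') k|) ^ 2 ≤ 2 ^ 2 :=
      pow_le_pow_left₀ (by positivity) h2 2
    rw [mul_pow, sq_abs] at h3
    linarith
  refine (Finset.sum_le_card_nsmul _ _ _ h1).trans ?_
  rw [Finset.card_univ, Fintype.card_fin, nsmul_eq_mul]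
  linarith

theorem exists_fine {d : ℕ} (hd : d ≠ 0) {N : E d → ℝ} (h : IsN N) {δ : ℝ} (hδ : 0 < δ) :
    ∃ m : ℕ, (∀ x : E d, x ≠ 0 → qq d m x ≠ 0) ∧
      ∀ x x' y y' : E d, x ≠ 0 → x' ≠ 0 → y ≠ 0 → y' ≠ 0 → qq d m x = qq d m x' →
        qq d m y = qq d m y' → |FF N x y - FF N x' y'| ≤ δ := by
  have hdpos : (1 : ℝ) ≤ d := by exact_mod_cast Nat.one_le_iff_ne_zero.2 hd
  set K0 : Set (E d × E d) := Metric.sphere (0 : E d) 1 ×ˢ Metric.sphere (0 : E d) 1 with hK0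
  have hK : IsCompact K0 := (isCompact_sphere 0 1).prod (isCompact_sphere 0 1)
  set G : E d × E d → ℝ := fun p => inner ℝ ((N p.1)⁻¹ • p.1) p.2 with hG
  have hcont : ContinuousOn G K0 := by
    have h1 : ContinuousOn (fun p : E d × E d => (N p.1)⁻¹) K0 := by
      refine ContinuousOn.inv₀ (h.cont.comp continuous_fst).continuousOn fun p hp => ?_
      have hp1 : p.1 ∈ Metric.sphere (0 : E d) 1 := hp.1
      have hne : p.1 ≠ 0 := by
        intro h0
        rw [h0, mem_sphere_iff_norm, sub_zero, norm_zero] at hp1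
        exact zero_ne_one hp1
      exact (h.pos _ hne).ne'
    exact (h1.smul continuous_fst.continuousOn).inner continuous_snd.continuousOn
  have huc := hK.uniformContinuousOn_of_continuous hcont
  rw [Metric.uniformContinuousOn_iff] at huc
  obtain ⟨η, hη, hu⟩ := huc δ hδ
  obtain ⟨m, hm⟩ := exists_nat_gt (2 * (d : ℝ) / η + 2 * d)
  have hm1 : 2 * (d : ℝ) < m := by
    have : 0 ≤ 2 * (d : ℝ) / η := by positivity
    linarith
  have hm2 : 2 * (d : ℝ) < m * η := by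
    have h3 : 2 * (d : ℝ) / η < m := by linarith
    rwa [div_lt_iff₀ hη] at h3
  have hdir : ∀ x : E d, x ≠ 0 → ‖‖x‖⁻¹ • x‖ = 1 := by
    intro x hx
    rw [norm_smul, norm_inv, norm_norm, inv_mul_cancel₀ (norm_ne_zero_iff.2 hx)]
  have hclose : ∀ x x' : E d, qq d m x = qq d m x' → ‖‖x‖⁻¹ • x - ‖x'‖⁻¹ • x'‖ < η := by
    intro x x' hxx
    have h1 := dir_close hxx
    by_contra hcon
    rw [not_lt] at hcon
    have h2 : (m * η) ^ 2 ≤ (m : ℝ) ^ 2 * ‖‖x‖⁻¹ • x - ‖x'‖⁻¹ • x'‖ ^ 2 := by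
      rw [mul_pow]
      exact mul_le_mul_of_nonneg_left (pow_le_pow_left₀ hη.le hcon 2) (by positivity)
    have h3 : (2 * (d : ℝ)) ^ 2 < (m * η) ^ 2 := pow_lt_pow_left₀ hm2 (by positivity) two_ne_zero
    nlinarith
  refine ⟨m, fun x hx h0 => ?_, ?_⟩
  · have h1 := dir_close (m := m) (x := x) (x' := 0) (by rw [h0, qq_zero])
    rw [smul_zero, sub_zero, hdir x hx, one_pow, mul_one] at h1
    nlinarith
  · intro x x' y y' hx hx' hy hy' hxx hyy
    have e : ∀ a b : E d, a ≠ 0 → FF N a b = G (‖a‖⁻¹ • a, ‖b‖⁻¹ • b) := by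
      intro a b ha
      have hna : 0 < ‖a‖ := norm_pos_iff.2 ha
      have hNa := h.pos a ha
      rw [hG]
      unfold FF
      change _ = inner ℝ ((N (‖a‖⁻¹ • a))⁻¹ • ‖a‖⁻¹ • a) (‖b‖⁻¹ • b)
      rw [h.smul_nonneg (inv_nonneg.2 hna.le), smul_smul]
      have e1 : (‖a‖⁻¹ * N a)⁻¹ * ‖a‖⁻¹ = (N a)⁻¹ := by
        field_simp
      rw [e1]
    rw [e x y hx, e x' y' hx', ← Real.dist_eq]
    refine (hu _ ?_ _ ?_ ?_).le
    · exact ⟨by rw [mem_sphere_iff_norm, sub_zero]; exact hdir x hx,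
        by rw [mem_sphere_iff_norm, sub_zero]; exact hdir y hy⟩
    · exact ⟨by rw [mem_sphere_iff_norm, sub_zero]; exact hdir x' hx',
        by rw [mem_sphere_iff_norm, sub_zero]; exact hdir y' hy'⟩
    · rw [Prod.dist_eq, dist_eq_norm, dist_eq_norm]
      exact max_lt (hclose x x' hxx) (hclose y y' hyy)

end Pool.Agent.LibBS39
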